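import Pool.Agent.Lib.MP_3b3418_ag.PW.E.Ex
import Pool.Agent.Lib.MP_3b3418_ag.PW.E.Is
import Pool.Agent.Lib.MP_3b3418_ag.PW.E.Dg
import Pool.Agent.Lib.MP_3b3418_ag.PW.E.RA
import Pool.Agent.Lib.MP_3b3418_ag.PW.E.SV
import Pool.Agent.Lib.MP_3b3418_ag.PW.E.In
import Pool.Agent.Lib.MP_3b3418_ag.PW.E.So
import Pool.Agent.Lib.MP_3b3418_ag.PW.F.Ph
import Pool.Agent.Lib.MP_3b3418_ag.PW.F.Wt
import Pool.Agent.Lib.MP_3b3418_ag.PW.F.Ev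
import Pool.Agent.Lib.MP_3b3418_ag.PW.F.Dc
import Pool.Agent.Lib.MP_3b3418_ag.PW.F.Re
import Pool.Agent.Lib.MP_3b3418_ag.PW.F.De
import Pool.Agent.Lib.MP_3b3418_ag.PW.F.Cm
import Pool.Agent.Lib.MP_3b3418_ag.PW.F.Aq
import Pool.Agent.Lib.MP_3b3418_ag.PW.F.Tq
import Pool.Agent.Lib.MP_3b3418_ag.PW.F.Cj
import Pool.Agent.Lib.MP_3b3418_ag.PW.F.Al
import Pool.Agent.Lib.MP_3b3418_ag.PW.F.Ps
import Pool.Agent.Lib.MP_3b3418_ag.PW.F.Em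
import Pool.Agent.Lib.MP_3b3418_ag.PW.F.Ba
import Pool.Agent.Lib.MP_3b3418_ag.PW.F.Fn
import Pool.Agent.Lib.MP_3b3418_ag.PW.F.St
import Pool.Agent.Lib.MP_3b3418_ag.PW.F.TA
import Pool.Agent.Lib.MP_3b3418_ag.PW.G.P1
import Pool.Agent.Lib.MP_3b3418_ag.PW.G.P3
import Pool.Agent.Lib.MP_3b3418_ag.PW.G.P2
import Pool.Agent.Lib.MP_3b3418_ag.PW.G.TS
import Pool.Agent.Lib.MP_3b3418_ag.PW.G.F1
import Pool.Agent.Lib.MP_3b3418_ag.PW.G.F2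
import Pool.Agent.Lib.MP_3b3418_ag.PW.G.F3
import Pool.Agent.Lib.MP_3b3418_ag.PW.G.F5
import Pool.Agent.Lib.MP_3b3418_ag.PW.G.PX
import Pool.Agent.Lib.MP_3b3418_ag.PW.G.Ac
import Pool.Agent.Lib.MP_3b3418_ag.PW.G.KB
import Pool.Agent.Lib.MP_3b3418_ag.PW.G.KR
import Pool.Agent.Lib.MP_3b3418_ag.PW.G.KL
import Pool.Agent.Lib.MP_3b3418_ag.PW.G.Q2
import Pool.Agent.Lib.MP_3b3418_ag.PW.G.Q3
import Pool.Agent.Lib.MP_3b3418_ag.PW.G.K4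
import Pool.Agent.Lib.MP_3b3418_ag.PW.G.CB
import Pool.Agent.Lib.MP_3b3418_ag.PW.R.NU
import Pool.Agent.Lib.MP_3b3418_ag.PW.R.KM
import Pool.Agent.Lib.MP_3b3418_ag.PW.R.KN
import Pool.Agent.Lib.MP_3b3418_ag.PW.R.CR
import Pool.Agent.Lib.MP_3b3418_ag.PW.R.FR
import Pool.Agent.Lib.MP_3b3418_ag.PW.R.KZ
import Pool.Agent.Lib.MP_3b3418_ag.PW.R.CS
import Pool.Agent.Lib.MP_3b3418_ag.PW.R.CT
import Pool.Agent.Lib.MP_3b3418_ag.PW.R.FS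

/-!
# Project PV2: assembly
-/

set_option autoImplicit false

namespace PW

open MP3s PV

theorem zEx : S_Ex := tEx

theorem zIs : S_Is := tIs

theorem zDg : S_Dg := tDg zEx zIs

theorem zRA : S_RA := tRA

theorem zSV : S_SV := tSV zRA

theorem zIn : S_In := tIn

theorem zSo : S_So := tSo zSV zIn

theorem zPh : S_Ph := tPh

theorem zWt : S_Wt := tWt zPh

theorem zEv : S_Ev := tEv zPh

theorem zDc : S_Dc := tDc

theorem zRe : S_Re := tRe zPh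

theorem zDe : S_De := tDe zDg zWt zEv zDc zRe

theorem zCm : S_Cm := tCm

theorem zAq : S_Aq := tAq zCm

theorem zTq : S_Tq := tTq zAq

theorem zCj : S_Cj := tCj zAq

theorem zAl : S_Al := tAl zPh zCm zRe zAq

theorem zPs : S_Ps := tPs zPh zCj

theorem zEm : S_Em := tEm

theorem zBa : S_Ba := tBa zIs zDg zEv zRe zCj zPs zEm

theorem zFn : S_Fn := tFn zDc zRe zAq zAl

theorem zSt : S_St := tSt zSo zDe zAq zTq zAl zFn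

theorem zTA : S_TA := tTA zDe zAq zCj zBa zSt

theorem zP1 : S_P1 := tP1

theorem zP3 : S_P3 := tP3 zP1

theorem zP2 : S_P2 := tP2 zP1

theorem zTS : S_TS := tTS

theorem zF1 : S_F1 := tF1 zP1 zP2 zTS

theorem zF2 : S_F2 := tF2 zP1 zP2 zTS

theorem zF3 : S_F3 := tF3 zP1 zP2 zP3 zTS

theorem zF5 : S_F5 := tF5 zP1 zP2 zP3 zTS zF1 zF3

theorem zPX : S_PX := tPX zP2

theorem zAc : S_Ac := tAc zP1 zP2

theorem zKB : S_KB := tKB zP1 zP2 zTS zF1 zF2 zF3 zAc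

theorem zKR : S_KR := tKR zP1 zP2 zTS zF3 zF5 zAc

theorem zKL : S_KL := tKL zF1 zF5 zTS

theorem zQ2 : S_Q2 := tQ2 zP1 zP2 zTS zF3 zAc

theorem zQ3 : S_Q3 := tQ3 zP1 zP2 zTS zF1 zF3 zAc zQ2

theorem zK4 : S_K4 := tK4 zP1 zP2 zTS zF1 zF3 zAc zQ2 zQ3

theorem zCB : S_CB := tCB zTS zPX zAc zKB zKR zKL zK4

theorem zNU : S_NU := tNU zP1 zP2 zP3 zTS zF1

theorem zKM : S_KM := tKM zF1

theorem zKN : S_KN := tKN zP1 zP2 zAc zK4 zNU zKM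

theorem zCR : S_CR := tCR zPX zAc zKN

theorem zFR : S_FR := tFR zTA zCB zCR

theorem zKZ : S_KZ := tKZ zP1 zP2 zTS zF3 zAc

theorem zCS : S_CS := tCS zP1 zAc zNU zKN zKZ zKL

theorem zCT : S_CT := tCT zPX zCS

theorem zFS : S_FS := tFS zTA zCB zCR zCT

end PW
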