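import Pool.Agent.Lib.MP_3b3418_ag.PW.U.Pu
import Pool.Agent.Lib.MP_3b3418_ag.PW.U.Pk
import Pool.Agent.Lib.MP_3b3418_ag.PW.U.V0
import Pool.Agent.Lib.MP_3b3418_ag.PW.U.V1
import Pool.Agent.Lib.MP_3b3418_ag.PW.U.V2
import Pool.Agent.Lib.MP_3b3418_ag.PW.U.V3
import Pool.Agent.Lib.MP_3b3418_ag.PW.U.V4
import Pool.Agent.Lib.MP_3b3418_ag.PW.U.VX
import Pool.Agent.Lib.MP_3b3418_ag.PW.U.V5
import Pool.Agent.Lib.MP_3b3418_ag.PW.U.CV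
import Pool.Agent.Lib.MP_3b3418_ag.PW.U.FV

/-!
# Project PV2, assembly of part T
-/

set_option autoImplicit false

namespace PW

open MP3s PV

theorem zPu : S_Pu := tPu

theorem zPk : S_Pk := tPk zPu

theorem zV0 : S_V0 := tV0 zPk

theorem zV1 : S_V1 := tV1 zPk zV0

theorem zV2 : S_V2 := tV2 zPk zV0 zV1

theorem zV3 : S_V3 := tV3 zPk zV0 zV1 zV2

theorem zV4 : S_V4 := tV4 zPk zV0 zV1 zV2 zV3

theorem zVX : S_VX := tVX zPk zV2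

theorem zV5 : S_V5 := tV5 zPk zV0 zV1 zV2 zV3 zV4 zVX

theorem zCV : S_CV := tCV zV0 zV1 zV2 zV3 zV4 zV5

theorem zFV : S_FV := tFV zCV

end PW
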