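import Pool.Agent.Lib.MP_3b3418_ag.PV.All

/-!
# Project PV2, part E: homological lemmas for `Trv`

All statements of PV (`S_Mor`, `S_Tri`, `S_RGa`, `S_Sw`, `S_L`, `S_Tw`, `S_Iv`, ..) are proved there:
`tMor`, `aTri`, `aRGa`, `aSw`, `aL`, `tTw tMor`, `tIv`, ..; they may be used directly.
-/

set_option autoImplicit false

namespace PW

open MP3s PV

/-- **Ex** (exactness). The maps `RG m V' → RG m V → RG m V''` (composition) form a short exact sequence
(surjective: linear section of `π`; kernel: linear left inverse of `ι`), and `S_Tri` applies. The proof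
is the same as in `PV/D/Fil.lean` (`Fil_map`). -/
def S_Ex : Prop := ∀ (m : ℕ) (V' V V'' : Type) [AddCommGroup V'] [Module ℂ V'] [AddCommGroup V]
  [Module ℂ V] [AddCommGroup V''] [Module ℂ V''] (ρ' : Representation ℂ (Bo m) V')
  (ρ : Representation ℂ (Bo m) V) (ρ'' : Representation ℂ (Bo m) V'') (ι : V' →ₗ[ℂ] V)
  (π : V →ₗ[ℂ] V'') (q : ℕ), Rat ρ' → Rat ρ → Rat ρ'' → Ses ρ' ρ ρ'' ι π →
  Trv ρ' q → Trv ρ'' q → Trv ρ q

/-- **Is.** Zero modules, and transport along an isomorphism (`S_VZ`, second part, for the isomorphism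
`F ↦ e ∘ F` of `RG m V` with `RG m V₁`; or `S_Ex` with a zero module). -/
def S_Is : Prop := ∀ (m : ℕ) (V V₁ : Type) [AddCommGroup V] [Module ℂ V] [AddCommGroup V₁]
  [Module ℂ V₁] (ρ : Representation ℂ (Bo m) V) (ρ₁ : Representation ℂ (Bo m) V₁) (q : ℕ),
  (Subsingleton V → Trv ρ q) ∧
  ∀ e : V ≃ₗ[ℂ] V₁, (∀ b v, e (ρ b v) = ρ₁ b (e v)) → Trv ρ q → Trv ρ₁ q

/-- **Dg** (degeneration). Induction on the number of elements of `K`. `K` empty: `S_Is`. Else let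
`κ₀ ∈ K` with minimal `h`, `K' = K.erase κ₀`, `V' = ⨆ κ ∈ K', W κ`. For `w ∈ W κ`, `κ ∈ K'`:
`Φ b w ∈ W κ + ⨆_(h κ' > h κ) W κ' ≤ V'` because `h κ₀ ≤ h κ`. So `V'` is stable and the induction
hypothesis applies to it (the conditions are the same). `W κ₀` and `V'` are disjoint: eigenspaces of
`D` for different eigenvalues are independent (`Module.End.eigenspaces_iSupIndep`). So every element
of `V` is uniquely `v' + w`, `v' ∈ V'`, `w ∈ W κ₀`; `π (v' + w) = w` is equivariant: `V'` is stable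
and `Φ b w - ρ κ₀ b w ∈ V'`. `S_Ex` for `0 → V' → V → W κ₀ → 0`. -/
def S_Dg : Prop := ∀ (m : ℕ) (R : Type) [AddCommGroup R] [Module ℂ R]
  (Φ : Bo m → R →ₗ[ℂ] R) (I : Type) [DecidableEq I] (K : Finset I) (W : I → Submodule ℂ R)
  (ρ : (κ : I) → Representation ℂ (Bo m) (W κ)) (D : R →ₗ[ℂ] R) (ev : I → ℂ) (h : I → ℤ)
  (q : ℕ), (∀ κ ∈ K, Rat (ρ κ)) → (∀ κ ∈ K, ∀ w ∈ W κ, D w = ev κ • w) →
  (∀ κ ∈ K, ∀ κ' ∈ K, ev κ = ev κ' → κ = κ') →
  (∀ κ ∈ K, ∀ (b : Bo m) (w : W κ),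
    Φ b w.1 - (ρ κ b w).1 ∈ ⨆ κ' ∈ K.filter (fun κ' => h κ < h κ'), W κ') →
  (∀ κ ∈ K, Trv (ρ κ) q) →
  ∀ (V : Submodule ℂ R) (θ : Representation ℂ (Bo m) V), V = ⨆ κ ∈ K, W κ →
  (∀ b v, (θ b v).1 = Φ b v.1) → Rat θ → Trv θ q

/-- **RA.** `RG m V` inherits the `AlphaMod` structure: `σ'(g) F (y) = σ g (F (y e(g)))` with the block
embedding `e` of `S_Emb`; for upper triangular `g` with block matrix `b ∈ B` (`b.1 = e g`):
`(θ b F)(y) = ρ b (F (y b)) = g_00 ^ c • σ g (F (y b))`. Rational: `S_RGa` for `θ`; for `σ'`: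
`(g, y) ↦ σ g (F (y e(g)))` is regular jointly, `Reg.curry`, `Reg.codRestrict`. Second claim: the
representations `IsR` are unique, and `tw θ μ` is one for `tw ρ μ`. -/
def S_RA : Prop := ∀ (m : ℕ) (i j : Fin m), j.val = i.val + 1 → ∀ (c : ℤ) (V : Type)
  [AddCommGroup V] [Module ℂ V] (ρ : Representation ℂ (Bo m) V)
  (σ : Representation ℂ (SLm 2) V), AlphaMod i j c ρ σ →
  ∀ θ, IsR ρ θ → (∃ σ' : Representation ℂ (SLm 2) (RG m V), AlphaMod i j c θ σ') ∧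
    ∀ (μ : Fin m → ℤ) θ', IsR (tw ρ μ) θ' → θ' = tw θ μ

/-- **SV.** Vanishing and swap for `Trv`: `S_L` and `S_Sw` for the modules `RG m V` (`S_RA`), with
`f = τ x - id` (it commutes with `θ`: `S_RGa`; `S_VZ` for `Van → Zq`). -/
def S_SV : Prop := ∀ (m : ℕ) (i j : Fin m), j.val = i.val + 1 → ∀ (V : Type)
  [AddCommGroup V] [Module ℂ V] (ρ : Representation ℂ (Bo m) V)
  (σ : Representation ℂ (SLm 2) V),
  (AlphaMod i j 1 ρ σ → ∀ q, Trv ρ q) ∧
  (AlphaMod i j 0 ρ σ → ∀ (μ : Fin m → ℤ) (r : ℕ), μ j - μ i = r →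
    (∀ q, Trv (tw ρ μ) q → Trv (tw ρ (μ + ((r : ℤ) + 1) • root i j)) (q + 1)) ∧
    Trv (tw ρ (μ + ((r : ℤ) + 1) • root i j)) 0)

/-- The number of pairs `k < l < n` with `η_k < η_l`. -/
def inn {m : ℕ} (n : ℕ) (η : Fin m → ℤ) : ℕ :=
  (Finset.univ.filter fun p : Fin m × Fin m =>
    p.1 < p.2 ∧ p.2.val < n ∧ η p.1 < η p.2).card

/-- `η'` arises from `η` by sorting the first `n` entries, which are distinct. -/
def Srt {m : ℕ} (n : ℕ) (η η' : Fin m → ℤ) : Prop :=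
  ∃ s : Equiv.Perm (Fin m), (∀ k : Fin m, n ≤ k.val → s k = k) ∧ (∀ k, η' k = η (s k)) ∧
    ∀ i j : Fin m, i < j → j.val < n → η' j < η' i

/-- **In.** Facts on `inn` (compare `S_Iv`). (1) Swapping two adjacent entries of the first `n`
which form an ascent lowers `inn` by one. (2) `inn > 0`: there is an adjacent ascent. (3) `inn = 0`
(weakly decreasing) and two equal entries: two adjacent equal entries. (4) `inn = 0` and `Srt`:
`η' = η` (a strictly decreasing rearrangement of a weakly decreasing sequence). (5) `Srt` is kept by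
a swap. (6) `Srt` excludes equal entries. -/
def S_In : Prop := ∀ (m n : ℕ) (η : Fin m → ℤ),
  (∀ i j : Fin m, j.val = i.val + 1 → j.val < n → η i < η j →
    inn n (fun k => η (Equiv.swap i j k)) + 1 = inn n η) ∧
  (0 < inn n η → ∃ i j : Fin m, j.val = i.val + 1 ∧ j.val < n ∧ η i < η j) ∧
  (inn n η = 0 → (∃ i j : Fin m, i < j ∧ j.val < n ∧ η i = η j) →
    ∃ i j : Fin m, j.val = i.val + 1 ∧ j.val < n ∧ η i = η j) ∧
  (inn n η = 0 → ∀ η', Srt n η η' → η' = η) ∧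
  (∀ (i j : Fin m) (η' : Fin m → ℤ), i.val < n → j.val < n → Srt n η η' →
    Srt n (fun k => η (Equiv.swap i j k)) η') ∧
  ∀ (η' : Fin m → ℤ), Srt n η η' → ∀ i j : Fin m, i < j → j.val < n → η i ≠ η j

/-- `ρ` extends to the `SL_2` of all adjacent pairs among the first `n` coordinates. -/
def PM {m : ℕ} (n : ℕ) {V : Type} [AddCommGroup V] [Module ℂ V]
    (ρ : Representation ℂ (Bo m) V) : Prop :=
  ∀ i j : Fin m, j.val = i.val + 1 → j.val < n →
    ∃ σ : Representation ℂ (SLm 2) V, AlphaMod i j 0 ρ σ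

/-- **So** (Bott for the first `n` coordinates). Write `P(η, q) = Trv (tw ρ (δ - η)) q`. Induction on
`inn n η`, for both claims. If there is an adjacent ascent `(i, j)` (`S_In` (2)), put
`η₁ = η ∘ swap`, `μ = δ - η₁`, `μ_j - μ_i = η_j - η_i - 1 = r ≥ 0`, `μ + (r+1) root i j = δ - η`: by
`S_SV` `P(η, 0)` and `P(η₁, q) → P(η, q+1)`; `inn n η₁ = inn n η - 1`; equal entries and `Srt` are kept
(`S_In`). If `inn n η = 0`: equal entries: two adjacent ones are equal, `(δ - η)_i - (δ - η)_j = 1`,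
`tw ρ (δ - η)` is an `AlphaMod i j 1` (`S_Tw`): `S_SV`. Second claim: `η' = η` (`S_In` (4)). -/
def S_So : Prop := ∀ (m n : ℕ) (V : Type) [AddCommGroup V] [Module ℂ V]
  (ρ : Representation ℂ (Bo m) V), PM n ρ → ∀ (η : Fin m → ℤ) (q : ℕ),
  ((∃ i j : Fin m, i < j ∧ j.val < n ∧ η i = η j) → Trv (tw ρ (del m - η)) q) ∧
  ∀ η', Srt n η η' → (q < inn n η → Trv (tw ρ (del m - η)) q) ∧
    (inn n η ≤ q → Trv (tw ρ (del m - η')) (q - inn n η) → Trv (tw ρ (del m - η)) q)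

end PW
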