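import Pool.Agent.Lib.MP_3b3418_ag.PW.SpecE

/-!
# Project PV2, part F: letters, words and the column actions

The algebra `RA m` of the functions `𝔫 → ExteriorAlgebra (Tot m)`; the letters `(none, p)` (the
coordinate function `ν_p`), `(some true, p)` (the constant `E_ab`), `(some false, p)` (the constant
`E_ba`), `p = (a, b)`, `a < b`; a matrix `a` which preserves the kind of the letters acts by the
algebra homomorphism `Ph a` with `Ph a (el k) = ∑_k' a_k'k el k'`.
-/

set_option autoImplicit false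

namespace PW

open MP3s PV

/-- Letters: kind and positive root. -/
abbrev Lt (m : ℕ) : Type := Option Bool × Pr m

/-- The algebra of the functions `𝔫 → ExteriorAlgebra (Tot m)`. -/
abbrev RA (m : ℕ) : Type := Nn m → ExteriorAlgebra ℂ (Tot m)

/-- The element of `RA m` of a letter. -/
noncomputable def el {m : ℕ} (k : Lt m) : RA m := fun ν =>
  match k.1 with
  | none => algebraMap ℂ _ (matN ν k.2.1.1 k.2.1.2)
  | some s => ExteriorAlgebra.ι ℂ (bv s k.2)

/-- The element of a word. -/
noncomputable def wd {m : ℕ} (l : List (Lt m)) : RA m := (l.map el).prod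

/-- The span of the words whose letters have the classes `κ`. -/
noncomputable def Yc {m : ℕ} {C : Type} (cl : Lt m → C) (κ : Multiset C) :
    Submodule ℂ (RA m) :=
  Submodule.span ℂ {f | ∃ l : List (Lt m), ((l.map cl : List C) : Multiset C) = κ ∧ f = wd l}

/-- Matrices indexed by letters. -/
abbrev LM (m : ℕ) : Type := Matrix (Lt m) (Lt m) ℂ

/-- The coordinates of a tangent vector. -/
def cfL {m : ℕ} (s : Bool) (p : Pr m) : Tot m →ₗ[ℂ] ℂ where
  toFun v := if s then matN v.2 p.1.1 p.1.2 else matS v.1 p.1.2 p.1.1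
  map_add' v w := by cases s <;> rfl
  map_smul' c v := by cases s <;> rfl

/-- The linear map of `Tot m` given by `a` (zero on the upper triangular part of `𝔰𝔩_m`). -/
noncomputable def Ta {m : ℕ} (a : LM m) : Tot m →ₗ[ℂ] Tot m :=
  ∑ s : Bool, ∑ p : Pr m,
    (cfL s p).smulRight (∑ p' : Pr m, a (some s, p') (some s, p) • bv s p')

/-- The map `𝔫 → 𝔫` given by `a`: the coordinate `p` of `Na a ν` is `∑_p' a_p'p ν_p'`. -/
noncomputable def Na {m : ℕ} (a : LM m) (ν : Nn m) : Nn m :=
  ∑ p : Pr m, (∑ p' : Pr m, a (none, p') (none, p) * matN ν p'.1.1 p'.1.2) •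
    (bv true p).2

/-- The algebra homomorphism `f ↦ (ν ↦ (Ta a) (f (Na a ν)))`. -/
noncomputable def Ph {m : ℕ} (a : LM m) : RA m →ₐ[ℂ] RA m where
  toFun f ν := ExteriorAlgebra.map (Ta a) (f (Na a ν))
  map_one' := funext fun _ => map_one _
  map_mul' _ _ := funext fun _ => map_mul _ _ _
  map_zero' := funext fun _ => map_zero _
  map_add' _ _ := funext fun _ => map_add _ _ _
  commutes' c := funext fun _ => AlgHom.commutes _ c

/-- `a` preserves the kinds and the classes. -/
def KP {m : ℕ} {C : Type} (cl : Lt m → C) (a : LM m) : Prop :=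
  ∀ k' k : Lt m, (k'.1 ≠ k.1 ∨ cl k' ≠ cl k) → a k' k = 0

/-- **Ph.** `Ph a (el k) = ∑_k' a_k'k el k'` for `KP cl a` (any `cl`): `cfL s p (bv s' p') = 1` if
`(s, p) = (s', p')`, else `0`; `matN (Na a ν) p = ∑_p' a_(none,p')(none,p) ν_p'`
(`matN` of `(bv true p').2` is `Matrix.single`). The sum over all letters `k'` reduces to those of the
kind of `k`. Then: (2) `Ph a` maps `Yc cl κ` to itself (words: induction on the word,
`wd (k :: l) = el k * wd l`); (3) `Ph a ∘ Ph a' = Ph (a * a')` and `Ph 1 = id` on words: both are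
algebra homomorphisms, compare on the letters. -/
def S_Ph : Prop := ∀ (m : ℕ) (C : Type) (cl : Lt m → C) (a : LM m), KP cl a →
  (∀ k, Ph a (el k) = ∑ k', a k' k • el k') ∧
  (∀ κ, ∀ f ∈ Yc cl κ, Ph a f ∈ Yc cl κ) ∧
  (∀ (a' : LM m), KP cl a' → ∀ l, Ph a (Ph a' (wd l)) = Ph (a * a') (wd l)) ∧
  ∀ l : List (Lt m), Ph (1 : LM m) (wd l) = wd l

/-- `a` is triangular with diagonal part `a'`: `cl'` refines `cl`. -/
structure Tri {m : ℕ} {C C' : Type} (cl : Lt m → C) (cl' : Lt m → C') (h : Lt m → ℤ)
    (a a' : LM m) : Prop where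
  ka : KP cl a
  ka' : KP cl' a'
  eq : ∀ k' k, k'.1 = k.1 → cl' k' = cl' k → a k' k = a' k' k
  up : ∀ k' k, cl' k' ≠ cl' k → a k' k ≠ 0 → h k < h k'

/-- **Wt.** `Ph a (wd l) - Ph a' (wd l)` is in the span of the `wd l'` with
`l'.map cl = l.map cl` (as multisets) and `∑ h l < ∑ h l'`. Induction on `l`: for `k :: l`, with
`X = Ph a' (el k)`, `X⁺ = (Ph a - Ph a') (el k)` (a combination of `el k'` with `cl k' = cl k` and
`h k < h k'`: if `cl' k' = cl' k` the coefficients agree, else `a' k' k = 0`), `Y = Ph a' (wd l)`,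
`Y⁺ = (Ph a - Ph a') (wd l)`: the difference is `X Y⁺ + X⁺ Y + X⁺ Y⁺`; `X`, `Y` are combinations of
words with the same `cl'` (so the same `cl` and `h`: these factor through `cl'`) by `S_Ph` (2). -/
def S_Wt : Prop := ∀ (m : ℕ) (C C' : Type) (cl : Lt m → C) (cl' : Lt m → C') (h : Lt m → ℤ)
  (π : C' → C) (hh : C' → ℤ), (∀ k, cl k = π (cl' k)) → (∀ k, h k = hh (cl' k)) →
  ∀ a a' : LM m, Tri cl cl' h a a' → ∀ l : List (Lt m),
  Ph a (wd l) - Ph a' (wd l) ∈ Submodule.span ℂ {f | ∃ l' : List (Lt m),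
    ((l'.map cl : List C) : Multiset C) = ((l.map cl : List C) : Multiset C) ∧
    (l.map h).sum < (l'.map h).sum ∧ f = wd l'}

/-- **Ev.** An operator `D` which has different eigenvalues on the different `Yc cl κ`: `D = Ph a` with
`a` diagonal with entries the primes `Nat.nth Nat.Prime (e (cl k))`, `e : C → ℕ` injective
(`C` countable). `D (wd l) = (∏ primes) • wd l`, `ev κ` = product over `κ` of the primes; injective by
unique factorization. -/
def S_Ev : Prop := ∀ (m : ℕ) (C : Type) [Countable C] (cl : Lt m → C),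
  ∃ (D : RA m →ₗ[ℂ] RA m) (ev : Multiset C → ℂ), Function.Injective ev ∧
    ∀ κ, ∀ f ∈ Yc cl κ, D f = ev κ • f

/-- **Dc.** Decomposition into the finer classes (`cl = π ∘ cl'`). `K` = the multisets `l.map cl'` for
the finitely many words `l` with `l.map cl = κ` (words of length `card κ` over the finite set of
letters). Also finiteness of the dimension. -/
def S_Dc : Prop := ∀ (m : ℕ) (C C' : Type) (cl : Lt m → C) (cl' : Lt m → C') (π : C' → C),
  (∀ k, cl k = π (cl' k)) → ∀ κ : Multiset C, Module.Finite ℂ (Yc cl κ) ∧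
  ∃ K : Finset (Multiset C'), (∀ κ', κ' ∈ K ↔ κ'.map π = κ ∧
    ∃ l : List (Lt m), ((l.map cl' : List C') : Multiset C') = κ') ∧
    Yc cl κ = ⨆ κ' ∈ K, Yc cl' κ'

/-- A regular multiplicative family of matrices which preserves the classes. -/
structure RD {m : ℕ} {H : Type} [Group H] [Co H] {C : Type} (cl : Lt m → C)
    (a : H → LM m) : Prop where
  kp : ∀ x, KP cl (a x)
  one : a 1 = 1
  mul : ∀ x y, a (x * y) = a x * a y
  reg : ∀ k' k, RegF fun x => a x k' k

/-- `θ` is the representation on `Yc cl κ` given by `a`. -/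
def Rs {m : ℕ} {H : Type} [Group H] {C : Type} (cl : Lt m → C) (a : H → LM m)
    (κ : Multiset C) (θ : Representation ℂ H (Yc cl κ)) : Prop :=
  ∀ x v, (θ x v).1 = Ph (a x) v.1

/-- **Re.** Existence (`S_Ph` (2), (3)), rationality: for a word, `x ↦ Ph (a x) (wd l)` is regular by
induction on the word (`Ph (a x) (el k) = ∑ a x k' k • el k'`; the product of two regular functions with
values in an algebra is regular: expand), and `Reg.codRestrict`. -/
def S_Re : Prop := ∀ (m : ℕ) (H : Type) [Group H] [Co H] (C : Type) (cl : Lt m → C)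
  (a : H → LM m), RD cl a → ∀ κ, (∃ θ, Rs cl a κ θ) ∧ ∀ θ, Rs cl a κ θ → Rat θ

/-- `Trv` for `Yc cl κ` with the action given by `a`, twisted by `μ`. -/
def TV {m : ℕ} {C : Type} (cl : Lt m → C) (a : Bo m → LM m) (κ : Multiset C)
    (μ : Fin m → ℤ) (i : ℕ) : Prop := ∀ θ, Rs cl a κ θ → Trv (tw θ μ) i

/-- **De.** Degeneration for words. `S_Dg` with `R = RA m`, `Φ b = chr μ b • Ph (a b)`, `K` of `S_Dc`,
`W κ' = Yc cl' κ'`, `ρ κ' = tw (θ of S_Re) μ`, `D`, `ev` of `S_Ev` for `cl'`, `h κ' = (κ'.map hh).sum`.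
The difference `Φ b w - ρ κ' b w` for `w = wd l`: `S_Wt`; a word `l'` with `l'.map cl = l.map cl` is in
`Yc cl' (l'.map cl')`, and `l'.map cl' ∈ K`. -/
def S_De : Prop := ∀ (m : ℕ) (C C' : Type) [Countable C'] (cl : Lt m → C) (cl' : Lt m → C')
  (h : Lt m → ℤ) (π : C' → C) (hh : C' → ℤ), (∀ k, cl k = π (cl' k)) →
  (∀ k, h k = hh (cl' k)) → ∀ a a' : Bo m → LM m, RD cl a → RD cl' a' →
  (∀ b, Tri cl cl' h (a b) (a' b)) → ∀ (κ : Multiset C) (μ : Fin m → ℤ) (i : ℕ),
  (∀ κ', κ'.map π = κ → (∃ l : List (Lt m), ((l.map cl' : List C') : Multiset C') = κ') →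
    TV cl' a' κ' μ i) → TV cl a κ μ i

/-- Column matrices: on the letters of column `p`, `some true`: `E_lp ↦ ∑_k X_kl d' E_kp`; the other
kinds: `∑_k Z_lk d (..)_kp`. -/
noncomputable def cm {m : ℕ} (X Z : Fin m → Gl m) (d d' : Fin m → ℂ) : LM m := fun k' k =>
  if k'.1 = k.1 ∧ k'.2.1.2 = k.2.1.2 then
    (if k.1 = some true then X k.2.1.2 k'.2.1.1 k.2.1.1 * d' k.2.1.2
      else Z k.2.1.2 k.2.1.1 k'.2.1.1 * d k.2.1.2)
  else 0

/-- The first `p` coordinates are stable under `X p`. -/
def Blc {m : ℕ} (X : Fin m → Gl m) : Prop := ∀ p k l : Fin m, l < p → p ≤ k → X p k l = 0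

/-- **Cm.** Products of column matrices: in `∑_k''` only rows `< p` occur, the missing terms vanish by
`Blc Y` (kind `some true`) and `Blc Z` (other kinds: `a_k'k'' a_k''k = Z_k''k' d W_kk'' e`, so the
product is `(W Z)_kk' d e`). -/
def S_Cm : Prop := ∀ (m : ℕ) (X Z Y W : Fin m → Gl m) (d d' e e' : Fin m → ℂ), Blc Y → Blc Z →
  cm X Z d d' * cm Y W e e' =
    cm (fun p => X p * Y p) (fun p => W p * Z p) (fun p => d p * e p) (fun p => d' p * e' p) ∧
  cm (fun _ => 1) (fun _ => 1) (fun _ => 1) (fun _ => 1) = (1 : LM m)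

/-- `x` or its diagonal part. -/
noncomputable def trc {m : ℕ} (q : ℕ) (p : Fin m) (x : Gl m) : Gl m :=
  if p.val < q then Matrix.diagonal fun i => x i i else x

/-- The action of `B` at stage `q`: on the letters of the columns `< q` only the diagonal acts. -/
noncomputable def aq {m : ℕ} (q : ℕ) (b : Bo m) : LM m :=
  cm (fun p => trc q p (mB b)) (fun p => trc q p (mB b⁻¹)) (fun p => mB b p p)
    (fun p => mB b⁻¹ p p)

/-- Classes at stage `q`: kind, column, and the row if the column is `< q`. -/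
def clq {m : ℕ} (q : ℕ) (k : Lt m) : Option Bool × ℕ × ℕ :=
  (k.1, k.2.1.2.val, if k.2.1.2.val < q then k.2.1.1.val + 1 else 0)

/-- The projection from the classes of stage `q + 1` to those of stage `q`. -/
def prq (q : ℕ) (c : Option Bool × ℕ × ℕ) : Option Bool × ℕ × ℕ :=
  (c.1, c.2.1, if c.2.1 < q then c.2.2 else 0)

/-- **Aq.** `aq q` is a regular multiplicative family (`S_Cm`; diagonal parts of upper triangular
matrices multiply, `mB_diag_mul`; `Blc` by triangularity; entries of `b⁻¹`: `S_Mor`). -/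
def S_Aq : Prop := ∀ m q : ℕ, RD (clq (m := m) q) (fun b : Bo m => aq q b)

/-- The height for column `q`. -/
def hq {m : ℕ} (q : ℕ) (k : Lt m) : ℤ :=
  if k.2.1.2.val = q then (if k.1 = some true then -(k.2.1.1.val : ℤ) else k.2.1.1.val) else 0

/-- **Tq.** `aq q b` is triangular with diagonal part `aq (q+1) b`. Both agree in the columns `≠ q`;
in column `q` the entries with different rows: kind `some true`: `b_k'k ≠ 0` only for rows
`k' < k`; other kinds: `(b⁻¹)_kk' ≠ 0` only for `k < k'`. `clq q = prq q ∘ clq (q+1)`, and `hq q` is a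
function of `clq (q+1)`. -/
def S_Tq : Prop := ∀ m q : ℕ, (∀ k : Lt m, clq q k = prq q (clq (q + 1) k)) ∧
  (∃ hh : Option Bool × ℕ × ℕ → ℤ, ∀ k : Lt m, hq q k = hh (clq (q + 1) k)) ∧
  ∀ b : Bo m, Tri (clq q) (clq (q + 1)) (hq q) (aq q b) (aq (q + 1) b)

/-- The conjugation action on the letters. -/
noncomputable def ac {m : ℕ} (b : Bo m) : LM m := fun k' k =>
  if k'.1 = k.1 then
    (if k.1 = some true then mB b k'.2.1.1 k.2.1.1 * mB b⁻¹ k.2.1.2 k'.2.1.2
      else mB b⁻¹ k.2.1.1 k'.2.1.1 * mB b k'.2.1.2 k.2.1.2)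
  else 0

/-- The kind of a letter. -/
def clk {m : ℕ} (k : Lt m) : Option Bool := k.1

/-- The height for the conjugation action. -/
def hc {m : ℕ} (k : Lt m) : ℤ := if k.1 = some true then (k.2.1.2.val : ℤ) else -k.2.1.2.val

/-- **Cj.** `ac` is a regular multiplicative family: in the product the sum over the letters
`(κ, (r, c))`, `r < c`, may be extended to all pairs `(r, c)`, because
`b_(r'r) b⁻¹_(cc') b'_(r r0) b'⁻¹_(c0 c) ≠ 0` implies `r ≤ r0 < c0 ≤ c` (kind `some true`), and for the
other kinds (`b⁻¹_(r r') b_(c' c) b'⁻¹_(r0 r) b'_(c c0) ≠ 0`) `r ≤ r' < c' ≤ c`; then it factors. It is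
triangular with diagonal part `aq 0 b` for the height `hc` (entries with different columns: kind
`some true`: `b⁻¹_cc' ≠ 0` only for `c < c'`; else `b_c'c ≠ 0` only for `c' < c`). -/
def S_Cj : Prop := ∀ m : ℕ, RD (clk (m := m)) (fun b : Bo m => ac b) ∧
  ∀ b : Bo m, Tri clk (clq 0) hc (ac b) (aq 0 b)

/-- The weight of a class: of the letters of the columns `< q`. -/
def wtc {m : ℕ} (c : Option Bool × ℕ × ℕ) : Fin m → ℤ := fun i =>
  if c.2.2 = 0 then 0 else (if c.1 = some true then 1 else -1) *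
    ((if i.val + 1 = c.2.2 then 1 else 0) - if i.val = c.2.1 then 1 else 0)

/-- The weight of a multiset of classes. -/
def muK {m : ℕ} (κ : Multiset (Option Bool × ℕ × ℕ)) : Fin m → ℤ := (κ.map wtc).sum

/-- **Al.** For `j.val < q`, `j = i + 1`: the representation on `Yc (clq q) κ`, twisted by `-muK κ`, is an
`AlphaMod i j 0`: `σ g = Ph (cm X Z 1 1)` with `X p = 1` for `p < q`, `X p = e g` for `p ≥ q` (block
matrix, `S_Emb`; `Blc` because `i, j < q ≤ p`), `Z p` the same for `(e g)⁻¹`: `S_Cm`, `S_Re` (with `H =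
SLm 2`). For `b = e g`, `g` upper triangular: on a letter of a column `< q`, `aq q b` is the scalar
`chr (± rt) b` (`b_ll (b⁻¹)_pp` or its inverse) and `σ g` the identity; on the others they agree
(`b_pp = 1`). So `Ph (aq q b) = chr (muK κ) b • σ g` on words of class `κ` (induction on the word).
For `q ≥ m`: all letters are scaled. -/
def S_Al : Prop := ∀ (m q : ℕ) (κ : Multiset (Option Bool × ℕ × ℕ))
  (θ : Representation ℂ (Bo m) (Yc (m := m) (clq q) κ)),
  Rs (clq q) (fun b => aq q b) κ θ → PM q (tw θ (-muK κ)) ∧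
  (m ≤ q → ∀ b v, θ b v = chr (muK κ) b • v)

/-- Admissible multisets of kinds for `Mjk m j k`. -/
def Adm (j : ℕ) (k : ℤ) (κ : Multiset (Option Bool)) : Prop :=
  κ.count (some true) + κ.count (some false) = j ∧
  2 * (κ.count none : ℤ) = k + 2 * (κ.count (some true) : ℤ)

/-- The algebra homomorphism `f ↦ (ν ↦ ⋀(red ν ∘ Ad b) (f (b⁻¹ ν b)))`. -/
noncomputable def Ps {m : ℕ} (b : Bo m) : RA m →ₐ[ℂ] RA m where
  toFun f ν := ExteriorAlgebra.map (red ν ∘ₗ Ad b) (f (cN b ν))
  map_one' := funext fun _ => map_one _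
  map_mul' _ _ := funext fun _ => map_mul _ _ _
  map_zero' := funext fun _ => map_zero _
  map_add' _ _ := funext fun _ => map_add _ _ _
  commutes' c := funext fun _ => AlgHom.commutes _ c

/-- **Ps.** `Ps b (el k) = ∑ ac b k' k • el k'` for the kinds `none` (entries of `b⁻¹ ν b`), `some true`
(`red ν (0, μ) = (0, μ)`, `b E_lp b⁻¹`), and for `k = (some false, p)`: `Ad b (E_pl, 0) = (b E_pl b⁻¹, 0)`,
whose strictly lower part gives `∑ ac b k' k • el k'`; the second component of `red ν` of it is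
`-(ν y_+ - y_+ ν)`, `y_+` the upper part: a combination of `el (none, p') * el (some true, p'')`
(`y_+ = ∑ c_ij E_ij`, `i ≤ j`, coefficients of `ν y_+ - y_+ ν` at `p''` are linear in the `ν_p'`).
Then induction on the word as in `S_Wt` (words with the same numbers of kinds: `S_Ph` for `clk`):
`Ps b (wd l) - Ph (ac b) (wd l)` is a combination of words `l'` with more letters `none`, the same
number of odd letters and the same value of `count none - count (some true)`. -/
def S_Ps : Prop := ∀ (m : ℕ) (b : Bo m) (l : List (Lt m)),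
  Ps b (wd l) - Ph (ac b) (wd l) ∈ Submodule.span ℂ {f | ∃ l' : List (Lt m),
    (l.map clk).count none < (l'.map clk).count none ∧
    (l'.map clk).count (some true) + (l'.map clk).count (some false) =
      (l.map clk).count (some true) + (l.map clk).count (some false) ∧
    (l'.map clk).count none + (l.map clk).count (some true) =
      (l.map clk).count none + (l'.map clk).count (some true) ∧ f = wd l'}

/-- The inclusion of the functions with values in `Wedge j` into `RA m`. -/
noncomputable def inc (m j : ℕ) : (Nn m → Wedge j (Tot m)) →ₗ[ℂ] RA m where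
  toFun q ν := (⋀[ℂ]^j (Tot m)).subtype (q ν)
  map_add' q q' := funext fun ν => map_add (⋀[ℂ]^j (Tot m)).subtype (q ν) (q' ν)
  map_smul' c q := funext fun ν => map_smul (⋀[ℂ]^j (Tot m)).subtype c (q ν)

/-- **Em.** (1) injective. (2) `inc` of `mon β u` is the word with `β p` letters `(none, p)` and the
letters `(some s, p)` of `u` in order (`ιMulti` is the product of the `ι v_r` in the exterior algebra);
coordinate functions are central, so every word is of this form. With `S_MS` (1), (3): `inc` of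
`Mjk m j k` is the sum of the `Yc clk κ`, `Adm j k κ`. (3) `exteriorPower.map` and
`ExteriorAlgebra.map` agree on the exterior power. -/
def S_Em : Prop := ∀ (m j : ℕ) (k : ℤ), Function.Injective (inc m j) ∧
  Submodule.map (inc m j) (Mjk m j k) =
    ⨆ κ : Multiset (Option Bool), ⨆ _ : Adm j k κ, Yc (m := m) clk κ ∧
  ∀ (ρM : Representation ℂ (Bo m) (Mjk m j k)), IsM ρM → ∀ (b : Bo m) (q : Mjk m j k),
    inc m j (ρM b q).1 = Ps b (inc m j q.1)

/-- **Ba** (the base). `V` = `Submodule.map (inc m j) (Mjk m j k)`, with the transported representation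
(`S_Em`; rational: `Reg.map`, `Reg.codRestrict`), `Φ b = Ps b`. `S_Dg` with `K` = the finite set of the
admissible `κ` (`count (some true) ≤ j`, the other counts are determined), `W κ = Yc clk κ`, `ρ κ` = the
representation of `ac` (`S_Cj`, `S_Re`), `D`, `ev` of `S_Ev`, `h κ = count none κ`; the difference is
`S_Ps` (the words `l'` there are admissible again). Then `S_Is` for `Mjk m j k ≅ V`. (`tw θ 0 = θ`: `S_Tw`.) -/
def S_Ba : Prop := ∀ (m j : ℕ) (k : ℤ) (ρM : Representation ℂ (Bo m) (Mjk m j k)), IsM ρM →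
  Rat ρM → ∀ i : ℕ, (∀ κ, Adm j k κ → TV (m := m) clk (fun b => ac b) κ 0 i) → Trv ρM i

/-- The coefficients of the weight of a word. -/
def Xl {m : ℕ} (l : List (Lt m)) (p : Pr m) : ℤ :=
  (l.count (some true, p) : ℤ) - l.count (some false, p) - l.count (none, p)

/-- The part of column `q` of the weight. -/
def wq {m : ℕ} (X : Pr m → ℤ) (q : ℕ) : Fin m → ℤ :=
  ∑ p : Pr m, if p.1.2.val = q then X p • rt p else 0

/-- The algorithm: `η`, `V` after the columns `< q`. -/
inductive Pth {m : ℕ} (X : Pr m → ℤ) : ℕ → (Fin m → ℤ) → ℕ → Prop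
  | zero : Pth X 0 (del m) 0
  | step (q : ℕ) (η η' : Fin m → ℤ) (V : ℕ) : Pth X q η V → q < m →
      Srt (q + 1) (η - wq X q) η' → Pth X (q + 1) η' (V + inn (q + 1) (η - wq X q))

/-- Every odd letter occurs at most once. -/
def Odd1 {m : ℕ} (l : List (Lt m)) : Prop := ∀ (s : Bool) (p : Pr m), l.count (some s, p) ≤ 1

/-- **Fn** (last stage). `κ` a multiset of classes of stage `m` (so of letters). If an odd letter occurs
twice in a word of class `κ` then `wd` vanishes on this class (`ι v` anticommute, coordinate functions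
are central), so the module is zero. In general `θ b = chr (muK κ) b` (`S_Al`), so by `S_Fil` with
`Λ = {muK κ + μ}` (finite dimension: `S_Dc`) and `S_OneD`: for `μ = δ - η - muK κ` we need: `η`
injective with `invn η = i` implies `IsPm η`. Let `η` be strictly decreasing: `invn η = 0`. So `TV`
holds if `i = 0` implies `η = δ`. -/
def S_Fn : Prop := ∀ (m : ℕ) (κ : Multiset (Option Bool × ℕ × ℕ)) (η : Fin m → ℤ) (i : ℕ),
  (∀ a b : Fin m, a < b → η b < η a) →
  ((∀ l : List (Lt m), ((l.map (clq m) : List _) : Multiset _) = κ → Odd1 l) → i = 0 →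
    η = del m) → TV (clq m) (fun b => aq m b) κ (del m - η - muK κ) i

/-- **St** (the stages). Claim for `q ≤ m` by downward induction: let `κ` be a multiset of classes of
stage `q` which is the class of some word, `η`, `V` with `Pth (Xl l) q η V` for all words `l` of class
`κ` (the columns `< q` of `l` are determined by `κ`), and for all words `l` of class `κ` with `Odd1 l` and
all `η'`: `Pth (Xl l) m η' i → η' = δ`. Then `V ≤ i → TV (clq q) (aq q) κ (del m - η - muK κ) (i - V)`.
`q = m`: `S_Fn` (`η` is strictly decreasing by `Srt` in the last step, for `m = 0` trivial; if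
`i - V = 0` then `Pth (Xl l) m η i`). Step from `q + 1` to `q`: `S_De` with `S_Tq`, `S_Aq`: for `κ'` over
`κ`, the class of a word `l₀`: `muK κ' = muK κ + wq (Xl l₀) q`, so with `ζ = η - wq (Xl l₀) q` the twist is
`del m - ζ - muK κ'`: `S_So` with `n = q + 1` for `tw θ' (-muK κ')` (`S_Al`: `PM (q+1)`; `tw_tw`
from `S_Tw`). Equal entries of `ζ`: done. Else let `η'` be the sorted sequence (`Srt (q+1) ζ η'`
exists), `v = inn (q+1) ζ`: if `i - V < v` done, else the induction hypothesis for `κ'`, `η'`, `V + v`.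
Result (`q = 0`, `η = δ`, `V = 0`, `muK κ = 0` since all rows are `0` in `clq 0`). -/
def S_St : Prop := ∀ (m i : ℕ) (κ : Multiset (Option Bool × ℕ × ℕ)),
  (∀ l : List (Lt m), ((l.map (clq 0) : List _) : Multiset _) = κ → Odd1 l →
    ∀ η, Pth (Xl l) m η i → η = del m) → TV (m := m) (clq 0) (fun b => aq 0 b) κ 0 i

/-- **TA** (Theorem A). `S_Ba`, then `S_De` with `S_Cj` (`clk = Prod.fst ∘ clq 0`, `hc` is a function of
`clq 0`), then `S_St`; a word `l` whose multiset of kinds is admissible has
`count (some true) + count (some false) = j` etc. (`numbers of letters of each kind`). -/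
def S_TA : Prop := ∀ (m j : ℕ) (k : ℤ) (i : ℕ) (ρM : Representation ℂ (Bo m) (Mjk m j k)),
  IsM ρM → Rat ρM →
  (∀ l : List (Lt m), Adm j k ((l.map clk : List _) : Multiset _) → Odd1 l →
    ∀ η, Pth (Xl l) m η i → η = del m) → Trv ρM i

end PW
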