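import Pool.Agent.Lib.MP_3b3418_ag.PW.SpecF

/-!
# Project PV2, part G: combinatorics of the algorithm

Rows and positions are numbered from `0`. `al η k = η_k - δ_k`. One step (column `q`): the entries
`k < q` become `η_k + g_k - 1`, `g = s + b + γ`, the entry `q` becomes `X = m - 1 - N`, `N = ∑ g`; then the
first `q + 1` entries are sorted. `uu` = the number of rows above `X` = the position of `X` after
sorting, `ι = uu - N` (the value of `al η'` there), `inv = inn q ζ`.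
`dD = inv + ∑ γ - ι` is the increment of `D = V - ∑ (A - C - 2 β)`.
-/

set_option autoImplicit false

namespace PW

open MP3s PV

/-- `η - δ`. -/
def al {m : ℕ} (η : Fin m → ℤ) (k : Fin m) : ℤ := η k - del m k

/-- The number `N`. -/
def nn {m : ℕ} (s b γ : Fin m → ℕ) : ℤ := ∑ k, ((s k : ℤ) + b k + γ k)

/-- The entries before sorting. -/
def zt {m : ℕ} (q : ℕ) (η : Fin m → ℤ) (s b γ : Fin m → ℕ) : Fin m → ℤ := fun l =>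
  if l.val < q then η l + s l + b l + γ l - 1
  else if l.val = q then (m : ℤ) - 1 - nn s b γ else η l

/-- One step of the algorithm. -/
structure Stp (m q : ℕ) (η η' : Fin m → ℤ) (s b γ : Fin m → ℕ) : Prop where
  hq : q < m
  dec : ∀ i j : Fin m, i < j → j.val < q → η j < η i
  tail : ∀ k : Fin m, q ≤ k.val → η k = del m k
  sum0 : ∑ k, al η k = 0
  s1 : ∀ l, s l ≤ 1
  b1 : ∀ l, b l ≤ 1
  supp : ∀ l : Fin m, q ≤ l.val → s l = 0 ∧ b l = 0 ∧ γ l = 0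
  srt : Srt (q + 1) (zt q η s b γ) η'

/-- The number of rows above `X`. -/
def uu {m : ℕ} (q : ℕ) (η : Fin m → ℤ) (s b γ : Fin m → ℕ) : ℕ :=
  (Finset.univ.filter fun l : Fin m =>
    l.val < q ∧ (m : ℤ) - 1 - nn s b γ < zt q η s b γ l).card

/-- The increment of `D`. -/
def dD {m : ℕ} (q : ℕ) (η : Fin m → ℤ) (s b γ : Fin m → ℕ) : ℤ :=
  inn q (zt q η s b γ) + (∑ k, (γ k : ℤ)) - (uu q η s b γ - nn s b γ)

/-- The sum of the positive entries of `η - δ`. -/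
def pp {m : ℕ} (η : Fin m → ℤ) : ℤ := ∑ k, max (al η k) 0

/-- **P1** (positions). `ζ = zt ..`, `u = uu ..`, `η' = ζ ∘ s'` with the permutation `s'` of `Srt`.
(1) the pairs `(l, q)` counted in `inn (q+1)` are the rows `l < q` with `ζ_l < X` (`ζ_q = X`, all
distinct); there are `q - u` of them. (2) the entry `X` of `η'` is at the position `u`: exactly `u` of the
first `q + 1` entries are larger than `X`. -/
def S_P1 : Prop := ∀ (m q : ℕ) (η η' : Fin m → ℤ) (s b γ : Fin m → ℕ), Stp m q η η' s b γ →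
  ((inn (q + 1) (zt q η s b γ) : ℤ) = inn q (zt q η s b γ) + q - uu q η s b γ) ∧
  uu q η s b γ ≤ q ∧
  (∀ k : Fin m, k.val = uu q η s b γ → η' k = (m : ℤ) - 1 - nn s b γ) ∧
  ∀ k : Fin m, k.val < uu q η s b γ ↔ k.val ≤ q ∧ (m : ℤ) - 1 - nn s b γ < η' k

/-- **P3** (positions). `ζ`, `u`, `s'` as in `S_P1`.
(1) `k = s' 0`, a row `< q` because `X` is not at the position `0`; all `l < k` have `ζ_l < ζ_k`, so the
pairs `(l, k)` are counted in `inn q`.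
(2) if there are no inversions, `ζ` is strictly decreasing on the rows `< q` (distinct), so the `u`
rows above `X` are `0, .., u-1` and they are in the positions `0, .., u-1` in this order.
(3) `r > u`, `r' = r - 1`: the `r` rows `0, .., r-1` have `ζ_l ≥ η_l - 1 ≥ η_(r') - 1`; their positions are
`≠ u`, so one of them is `≥ r`, and `η'` is decreasing. -/
def S_P3 : Prop := ∀ (m q : ℕ) (η η' : Fin m → ℤ) (s b γ : Fin m → ℕ), Stp m q η η' s b γ →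
  (1 ≤ uu q η s b γ → ∀ z : Fin m, z.val = 0 → ∃ k : Fin m, k.val < q ∧
    η' z = zt q η s b γ k ∧ k.val ≤ inn q (zt q η s b γ)) ∧
  (inn q (zt q η s b γ) = 0 → ∀ r : Fin m, r.val < uu q η s b γ → η' r = zt q η s b γ r) ∧
  ∀ r r' : Fin m, uu q η s b γ < r.val → r.val ≤ q → r'.val + 1 = r.val → η r' - 1 ≤ η' r

/-- **P2** (sums). For `r ≤ q + 1` let `R` be the set of the rows `< q` in the positions `< r`: `r` rows if
`r ≤ u`, `r - 1` rows (and `X`) if `r > u`. The state after the step: strictly decreasing (`Srt`),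
equal to `δ` from `q + 1` on, and `∑ al η' = 0`: `∑_(l<q) (g_l - 1) + (X - δ_q) = N - q + (q - N) = 0`,
`δ_q = m - 1 - q`. -/
def S_P2 : Prop := ∀ (m q : ℕ) (η η' : Fin m → ℤ) (s b γ : Fin m → ℕ), Stp m q η η' s b γ →
  (∀ r : ℕ, r ≤ q + 1 → ∃ R : Finset (Fin m), (∀ k ∈ R, k.val < q) ∧
    ((r ≤ uu q η s b γ ∧ R.card = r ∧
      ∑ k : Fin m with k.val < r, η' k = ∑ k ∈ R, zt q η s b γ k) ∨
     (uu q η s b γ < r ∧ R.card + 1 = r ∧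
      ∑ k : Fin m with k.val < r, η' k =
        (∑ k ∈ R, zt q η s b γ k) + ((m : ℤ) - 1 - nn s b γ)))) ∧
  (∀ i j : Fin m, i < j → j.val < q + 1 → η' j < η' i) ∧
  (∀ k : Fin m, q + 1 ≤ k.val → η' k = del m k) ∧ ∑ k, al η' k = 0

/-- **TS** (top sums). `η` strictly decreasing on the first `q` entries. (1) `R` a set of rows `< q`: the
`i`-th element of `R` is `≥ i`. (2) integers: gaps at least one. (3) `al η` is weakly decreasing on the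
first `q` entries; (4) if moreover it is `0` from `q` on and has sum `0` then it is everywhere at most
its value at `0`, which is `≥ 0`; and if `al η z ≤ 0` at the position `0` then `al η = 0`. -/
def S_TS : Prop := ∀ (m q : ℕ) (η : Fin m → ℤ),
  (∀ i j : Fin m, i < j → j.val < q → η j < η i) →
  (∀ R : Finset (Fin m), (∀ k ∈ R, k.val < q) →
    ∑ k ∈ R, η k ≤ ∑ k : Fin m with k.val < R.card, η k) ∧
  (∀ i j : Fin m, i ≤ j → j.val < q → η j + (j.val - i.val) ≤ η i ∧ al η j ≤ al η i) ∧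
  ((∀ k : Fin m, q ≤ k.val → η k = del m k) → ∑ k, al η k = 0 →
    (∀ z : Fin m, z.val = 0 → 0 ≤ al η z ∧ (∀ k, al η k ≤ al η z) ∧
      (al η z ≤ 0 → ∀ k, al η k = 0)) ∧
    (∀ r : ℕ, ∑ k : Fin m with k.val < r, al η k ≤ pp η) ∧
    ∃ r : ℕ, r ≤ q ∧ pp η = ∑ k : Fin m with k.val < r, al η k)

/-- **F1.** `ι ≥ 1`: `∑_(k<u) al η_k ≥ (u+1) ι`. By `S_P2` (`r = u`): `∑_(k<u) η'_k = ∑_R ζ =
∑_R (η + g) - u ≤ ∑_(k<u) η_k + N - u` (`S_TS` (1), `g ≥ 0`). And `η'_k ≥ η'_u + (u - k) = X + u - k`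
(`S_TS` (2) for `η'`, `S_P1`): `∑_(k<u) η'_k ≥ u X + u(u+1)/2`. With `∑_(k<u) δ_k = u(m-1) - u(u-1)/2` and
`X = m - 1 - N`: `∑_(k<u) al η_k ≥ u (u - N) + (u - N) = (u+1) ι`. (True for every `ι`.) -/
def S_F1 : Prop := ∀ (m q : ℕ) (η η' : Fin m → ℤ) (s b γ : Fin m → ℕ), Stp m q η η' s b γ →
  ((uu q η s b γ : ℤ) + 1) * (uu q η s b γ - nn s b γ) ≤
    ∑ k : Fin m with k.val < uu q η s b γ, al η k

/-- **F2.** `pp η' ≤ pp η + ∑ b + ∑ γ`, and the same with `s` instead of `b`. `pp η' = ∑_(k<r) al η'_k`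
for some `r ≤ q + 1` (`S_TS` for `η'`). `S_P2`: if `r ≤ u`: it is `∑_R (η + g) - r - ∑_(k<r) δ_k ≤
∑_(k<r) al η_k + ∑_R g - r` and `∑_R g ≤ r + ∑ b + ∑ γ` (`s ≤ 1`). If `r > u`, `|R| = r - 1`: it is
`∑_R (η + g) - (r-1) + (m-1-N) - ∑_(k<r) δ_k`, and `∑_(k<r) δ_k = (m-1) + ∑_(k<r-1) δ_k - (r-1)`, so
`≤ ∑_(k<r-1) al η_k + ∑_R g - N ≤ pp η`. -/
def S_F2 : Prop := ∀ (m q : ℕ) (η η' : Fin m → ℤ) (s b γ : Fin m → ℕ), Stp m q η η' s b γ →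
  pp η' ≤ pp η + (∑ k, (b k : ℤ)) + ∑ k, (γ k : ℤ) ∧
  pp η' ≤ pp η + (∑ k, (s k : ℤ)) + ∑ k, (γ k : ℤ)

/-- **F3.** Let `z` be the position `0`. (1) `u = 0`: `al η'_z = -N ≤ 0`, so `al η' = 0` (`S_TS`), `N = 0`.
(2) `u ≥ 1`: with `k` of `S_P3`: `al η'_z - al η_z = η_k - η_z + g_k - 1 ≤ g_k - 1 - k`, `k ≤ inv`.
(3) `u ≥ 1`, `ι = 0`, `dD < al η'_z - al η_z`: `inv + c < g_k - 1 - k`, `g_k ≤ 2 + γ_k`, so
`inv + k + (c - γ_k) + 1 < s_k + b_k ≤ 2`: `inv = k = 0`, `c = γ_0`, `s_0 = b_0 = 1`, and `dD = c =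
(..) - 1`. By `S_P3` (2) `η'_r = ζ_r` for `r < u`, and `η'_r ≥ X + u - r = δ_r` (`N = u`), so
`al η_r + g_r ≥ 1` for `r < u`. `∑_(r<u) g_r ≤ N = u`, `g_0 = 2 + c ≥ 2`, so some `r` with `1 ≤ r < u` has
`g_r = 0` and `al η_r ≥ 1`, hence `al η ≥ 1` at the position `1` (`S_TS`), `1 < q`. -/
def S_F3 : Prop := ∀ (m q : ℕ) (η η' : Fin m → ℤ) (s b γ : Fin m → ℕ), Stp m q η η' s b γ →
  ∀ z : Fin m, z.val = 0 →
  (uu q η s b γ = 0 → nn s b γ = 0 ∧ ∀ k, al η' k = 0) ∧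
  (1 ≤ uu q η s b γ → ∃ k : Fin m, k.val < q ∧
    al η' z - al η z ≤ (s k : ℤ) + b k + γ k - 1 - k.val ∧ k.val ≤ inn q (zt q η s b γ)) ∧
  (1 ≤ uu q η s b γ → (uu q η s b γ : ℤ) = nn s b γ →
    dD q η s b γ < al η' z - al η z →
    dD q η s b γ = al η' z - al η z - 1 ∧ 1 ≤ ∑ k, s k ∧ 1 ≤ ∑ k, b k ∧ 1 < q ∧
      ∀ z1 : Fin m, z1.val = 1 → 1 ≤ al η z1)

/-- **F5.** `al η = 0`. (1) `ι ≤ 0` (`S_F1`). (2) `ι = 0`: for `r ≤ u`, `η'_r ≥ X + u - r = δ_r`; for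
`u < r ≤ q`, `η'_r ≥ η_(r-1) - 1 = δ_r` (`S_P3` (3)); so `al η' ≥ 0` with sum `0` (`S_P2`). (3) `ι ≤ -1`: if
`u < q`, `r = u + 1`: `η'_r ≥ δ_u - 1 = m - 2 - u` (`S_P3` (3)) and `η'_r < η'_u = m - 1 - N`, so `N ≤ u`,
contradiction. So `u = q`, `N ≥ q + 1`, `u ≥ 1` (`S_F3` (1)), and by `S_F3` (2)
`al η'_z ≤ g_k - 1 - k ≤ 1 + c - k`, `q + al η'_z ≤ N - 1 + g_k - 1 - k` hence
`∑ s + ∑ b + 2 ∑ γ = N + c ≥ q + al η'_z` (`g_k ≤ 2 + c`). -/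
def S_F5 : Prop := ∀ (m q : ℕ) (η η' : Fin m → ℤ) (s b γ : Fin m → ℕ), Stp m q η η' s b γ →
  (∀ k, al η k = 0) → ∀ z : Fin m, z.val = 0 →
  (uu q η s b γ : ℤ) ≤ nn s b γ ∧
  ((uu q η s b γ : ℤ) = nn s b γ → ∀ k, al η' k = 0) ∧
  ((uu q η s b γ : ℤ) < nn s b γ →
    q + al η' z ≤ (∑ k, (s k : ℤ)) + (∑ k, (b k : ℤ)) + 2 * ∑ k, (γ k : ℤ))

/-- The content of column `q`, as a function of the row. -/
def co {m : ℕ} (q : ℕ) (F : Pr m → ℕ) (l : Fin m) : ℕ :=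
  ∑ p : Pr m, if p.1.1 = l ∧ p.1.2.val = q then F p else 0

/-- The algorithm with contents: `A`, `C` (values `≤ 1`), `β`. -/
inductive Pa {m : ℕ} (A C β : Pr m → ℕ) : ℕ → (Fin m → ℤ) → ℕ → Prop
  | zero : Pa A C β 0 (del m) 0
  | step (q : ℕ) (η η' : Fin m → ℤ) (V : ℕ) : Pa A C β q η V →
      Stp m q η η' (co q fun p => 1 - A p) (co q C) (co q β) →
      Pa A C β (q + 1) η'
        (V + inn (q + 1) (zt q η (co q fun p => 1 - A p) (co q C) (co q β)))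

/-- The sum over the columns `< q`. -/
def cs {m : ℕ} (q : ℕ) (F : Pr m → ℤ) : ℤ := ∑ p : Pr m, if p.1.2.val < q then F p else 0

/-- The number `D`. -/
def DD {m : ℕ} (A C β : Pr m → ℕ) (q V : ℕ) : ℤ :=
  V - cs q fun p => (A p : ℤ) - C p - 2 * β p

/-- **PX.** From the algorithm `Pth` to `Pa`: `η - wq X q = zt ..`: row `l < q`: `η_l - X_(l,q) =
η_l + (1 - A) - 1 + C + β`; entry `q`: `η_q + ∑_l X_(l,q) = δ_q + (q - ∑ s) - ∑ b - ∑ γ = m - 1 - N`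
(`η_q = δ_q = m-1-q`); the others do not change. The conditions `dec`, `tail`, `sum0` of `Stp`: `S_P2`
(induction). -/
def S_PX : Prop := ∀ (m : ℕ) (X : Pr m → ℤ) (A C β : Pr m → ℕ),
  (∀ p, X p = (A p : ℤ) - C p - β p) → (∀ p, A p ≤ 1) → (∀ p, C p ≤ 1) →
  ∀ (q : ℕ) (η : Fin m → ℤ) (V : ℕ), Pth X q η V → Pa A C β q η V

/-- **Ac.** Accounting. Increments in one step (`s = co q (1 - A)` etc., `∑_k co q F k` = sum of `F` over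
column `q`): `D` by `dD` (`S_P1` (1): `V` increases by `inv + q - u`; the sum of `A - C - 2β` over the
column is `q - ∑ s - ∑ b - 2 ∑ γ`, the column has `q` roots). The state conditions hold at every
stage (`Stp` resp. `S_P2`; `q = 0`: clear). -/
def S_Ac : Prop := ∀ (m : ℕ) (A C β : Pr m → ℕ), (∀ p, A p ≤ 1) → (∀ p, C p ≤ 1) →
  (∀ (q : ℕ) (η η' : Fin m → ℤ) (V : ℕ),
    Stp m q η η' (co q fun p => 1 - A p) (co q C) (co q β) →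
    DD A C β (q + 1) (V + inn (q + 1) (zt q η (co q fun p => 1 - A p) (co q C) (co q β))) =
      DD A C β q V + dD q η (co q fun p => 1 - A p) (co q C) (co q β)) ∧
  (∀ (q : ℕ) (F : Pr m → ℕ), cs (q + 1) (fun p => (F p : ℤ)) =
    cs q (fun p => (F p : ℤ)) + ∑ k, (co q F k : ℤ)) ∧
  ∀ (q : ℕ) (η : Fin m → ℤ) (V : ℕ), Pa A C β q η V → q ≤ m ∧
    (∀ i j : Fin m, i < j → j.val < q → η j < η i) ∧
    (∀ k : Fin m, q ≤ k.val → η k = del m k) ∧ ∑ k, al η k = 0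

/-- **KB.** `B ≤ 2` or `T ≤ 2`: `al η ≤ D` always. Induction, together with `pp η ≤ B_q` (first case).
Step, `B_(q+1) = B_q + ∑ b + ∑ γ ≤ 2` (`S_Ac`), `D ≥ 0` (a value `al η_k = 0` exists since
`q < m`). `u = 0`: `al η' = 0`, `N = 0`, `dD = inv ≥ 0` (`S_F3`). `u ≥ 1`: it suffices that
`dD ≥ al η'_z - al η_z` (then `al η'_z ≤ D'`, and `al η'_k ≤ al η'_z` by `S_TS`). `ι ≤ -1`: `S_F3` (2):
`al η'_z - al η_z ≤ 1 + c - k`, `dD ≥ k + c + 1`. `ι = 0`: else `S_F3` (3): `∑ b ≥ 1` and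
`pp η ≥ al η_z + al η_1 ≥ 2`, `B_q ≥ 2`, `B_(q+1) ≥ 3`. `ι ≥ 1`: `pp η ≥ (u+1) ι ≥ 2` (`S_F1`, `S_TS`), so
`B_q = 2`, `∑ b = ∑ γ = 0`, `(u+1) ι ≤ 2`: `u = ι = 1`, `N = 0`, all `g_k = 0`: `al η'_z - al η_z ≤ -1`,
`dD ≥ -1`. `pp η' ≤ B_(q+1)`: `S_F2`. Second case: exchange `s` and `b` (`∑ s ≥ 1` in `S_F3` (3)). -/
def S_KB : Prop := ∀ (m : ℕ) (A C β : Pr m → ℕ), (∀ p, A p ≤ 1) → (∀ p, C p ≤ 1) →
  ∀ (q : ℕ) (η : Fin m → ℤ) (V : ℕ), Pa A C β q η V →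
  (cs q (fun p => (C p : ℤ) + β p) ≤ 2 ∨ cs q (fun p => 1 - (A p : ℤ) + β p) ≤ 2) →
  ∀ k, al η k ≤ DD A C β q V

/-- **KR.** `al η ≠ 0` at stage `q`: the cost `∑_(columns < q) (1 - A + C + 2β)` is at least
`q + al η_z - 1` (`z` the position `0`). Induction; step with `al η' ≠ 0`: `u ≥ 1` (`S_F3` (1)). If
`al η ≠ 0`: the cost increases by `∑ s + ∑ b + 2 ∑ γ ≥ g_k ≥ 1 + al η'_z - al η_z`. If `al η = 0`: `S_F5`. -/
def S_KR : Prop := ∀ (m : ℕ) (A C β : Pr m → ℕ), (∀ p, A p ≤ 1) → (∀ p, C p ≤ 1) →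
  ∀ (q : ℕ) (η : Fin m → ℤ) (V : ℕ), Pa A C β q η V → (∃ k, al η k ≠ 0) →
  ∀ z : Fin m, z.val = 0 →
    q + al η z - 1 ≤ cs q fun p => 1 - (A p : ℤ) + C p + 2 * β p

/-- **KL** (last step). `al η ≤ D`, `0 ≤ D`, `D + dD = 0`: `al η' = 0`. `ι = D + inv + c`. If `ι ≥ 1`:
`(u+1) ι ≤ ∑_(k<u) al η_k ≤ u D ≤ u ι` (`S_F1`), contradiction. So `ι = D = inv = c = 0`, `al η ≤ 0` with
sum `0`, so `al η = 0`, `S_F5` (2). -/
def S_KL : Prop := ∀ (m q : ℕ) (η η' : Fin m → ℤ) (s b γ : Fin m → ℕ), Stp m q η η' s b γ →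
  ∀ D : ℤ, 0 ≤ D → (∀ k, al η k ≤ D) → D + dD q η s b γ = 0 → ∀ k, al η' k = 0

/-- **Q2.** Stages `0`, `1`: `al η = 0` (step `0`: no rows, `N = 0`, `X = m - 1`), `D = 0`. Stage `2` (positions
`z = 0`, `z1 = 1`): `x = al η_z ≥ 0`, `al η_z1 = -x`, `D ≥ x`, `D ≥ 2x - 1`. Step `q = 1` from `al η = 0`:
`ζ_0 = m - 2 + N`, `X = m - 1 - N`, `inv = 0`; `N = 0`: `u = 0`, `al η' = 0` (`S_F3`), `dD = c = 0`. `N ≥ 1`:
`u = 1`, `al η'_1 = X - (m-2) = 1 - N`, `x = N - 1`, `dD = c - (1 - N) = c + x`, `N ≤ 2 + c`, so `c ≥ x - 1`. -/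
def S_Q2 : Prop := ∀ (m : ℕ) (A C β : Pr m → ℕ), (∀ p, A p ≤ 1) → (∀ p, C p ≤ 1) →
  ∀ (q : ℕ) (η : Fin m → ℤ) (V : ℕ), Pa A C β q η V →
  (q ≤ 1 → (∀ k, al η k = 0) ∧ DD A C β q V = 0) ∧
  (q = 2 → ∀ z z1 : Fin m, z.val = 0 → z1.val = 1 → 0 ≤ al η z ∧ al η z1 = -al η z ∧
    (∀ k, al η k ≤ al η z) ∧ al η z ≤ DD A C β q V ∧ 2 * al η z - 1 ≤ DD A C β q V ∧
    0 ≤ DD A C β q V)

/-- **Q3.** Stage `3`: `al η ≤ D`, and `al η_1 ≥ 1` implies `D ≥ al η_0 + al η_1`. Step `q = 2`, `D`, `x` of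
`S_Q2` (`al η = (x, -x, 0, ..)`). First claim as in `S_KB`: `u = 0`: clear; `ι ≤ -1`: clear; `ι = 0`: `S_F3`
(3) would give `al η_1 ≥ 1`, but it is `-x ≤ 0`. `ι ≥ 1`: `u = 2`: `0 ≥ 3 ι` by `S_F1`, impossible;
`u = 1`: `N = 0`, `g = 0`, difference `≤ -1`, `dD ≥ -1`. Second claim: `u = 2`: `al η'_2 = X - (m-3) =
2 - N`, `al η'_0 + al η'_1 = N - 2 ≤ dD` (sum `0`), `D ≥ 0`. `u = 1`: `al η'_1 = X - (m-2) = 1 - N ≥ 1`, so
`N = 0`, `g = 0`, `ζ_l = η_l - 1` (`l < 2`), `inv = 0`, `al η'_0 = x - 1 ≥ al η'_1 = 1` (`S_TS`), `x ≥ 2`,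
`D' = D - 1 ≥ 2x - 2 ≥ x`. `u = 0`: `al η' = 0`. -/
def S_Q3 : Prop := ∀ (m : ℕ) (A C β : Pr m → ℕ), (∀ p, A p ≤ 1) → (∀ p, C p ≤ 1) →
  ∀ (η : Fin m → ℤ) (V : ℕ), Pa A C β 3 η V → (∀ k, al η k ≤ DD A C β 3 V) ∧
  ∀ z z1 : Fin m, z.val = 0 → z1.val = 1 → 1 ≤ al η z1 →
    al η z + al η z1 ≤ DD A C β 3 V

/-- **K4.** `al η ≤ D` at the stages `q ≤ 4`. Stages `≤ 3`: `S_Q2`, `S_Q3`. Stage `4`, step `q = 3`: `u = 0`:
clear. `ι ≤ -1`: as in `S_KB`. `ι = 0`: if `dD < diff := al η'_0 - al η_0` then `dD = diff - 1` and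
`al η_1 ≥ 1`, so `D ≥ al η_0 + 1` (`S_Q3`): `D + dD ≥ al η'_0`. `ι ≥ 1`: `u = 3`: `0 ≥ 4 ι` by `S_F1`
(sum `0`), impossible. `u = 1`: `N = 0`, `g = 0`, `diff ≤ -1`, `dD ≥ -1`. `u = 2`: `N = 2 - ι ≤ 1`;
`al η_1 ≥ 1`: otherwise `η_1 ≤ m - 2`, `η_2 ≤ m - 3` and `ζ_1, ζ_2 ≤ X = m - 1 - N`, so `u ≤ 1`. So
`D ≥ al η_0 + 1`, and `dD - diff ≥ inv + c - ι - g_k + 1 + k ≥ -1` (`ι = 2`: `g = 0`; `ι = 1`: `g_k ≤ 1`;
`inv ≥ k`). In all cases `al η'_k ≤ al η'_0` by `S_TS`. -/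
def S_K4 : Prop := ∀ (m : ℕ) (A C β : Pr m → ℕ), (∀ p, A p ≤ 1) → (∀ p, C p ≤ 1) →
  ∀ (q : ℕ) (η : Fin m → ℤ) (V : ℕ), Pa A C β q η V → q ≤ 4 → q < m →
  ∀ k, al η k ≤ DD A C β q V

/-- The condition on `(i, j)`. -/
def Reg4 (m i j : ℕ) : Prop :=
  j ≤ i + 4 ∨ m * (m - 1) ≤ i + j + 4 ∨ m * (m - 1) / 2 + 1 ≤ i + m ∨ m ≤ 5

/-- **CB.** Combinatorics, all together. `A p = l.count (some true, p)`, `C`, `β` similarly (`Odd1`),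
`S_PX`. With `a`, `b`, `c` the numbers of letters of the three kinds and `n = m(m-1)/2 = card (Pr m)`:
`a + b = j`, `2c = 2a - (i+j)`, so `DD A C β m i = i - (a - b - 2c) = 0`; `2 (b + c) = j - i`,
`2 (n - a + c) = 2n - i - j`, and the cost is `n - a + b + 2c = n - i`. `m = 0`: trivial. Cases: `j ≤ i + 4`:
`cs m (C + β) ≤ 2`: `S_KB`: `al η ≤ 0`, so `al η = 0` (sum `0`, `S_Ac`). `m(m-1) ≤ i + j + 4`: the
same. `n + 1 ≤ i + m`: `S_KR`: otherwise `m + al η_z - 1 ≤ n - i ≤ m - 1`, `al η_z ≤ 0`, `al η = 0`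
(`S_TS`). `m ≤ 5`: the last step of `Pa` (`q = m - 1 ≤ 4`), `S_K4`, `S_KL` (`D ≥ 0` because
`al η_k = 0` for `k = m - 1`), `S_Ac`. -/
def S_CB : Prop := ∀ m i j : ℕ, Reg4 m i j → ∀ l : List (Lt m),
  Adm j (-((i : ℤ) + j)) ((l.map clk : List _) : Multiset _) → Odd1 l →
  ∀ η, Pth (Xl l) m η i → η = del m

/-- **F4.** The theorem: `S_MR`, `S_TA` with `S_CB`, `S_BC`. -/
def S_F4 : Prop := ∀ m i j : ℕ, Reg4 m i j → ActsTrivially m i j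

end PW
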