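import Pool.Agent.Lib.MP_3b3418_ag.PW.SpecG

/-!
# Project PV2, part R: the bottom rows `i ≤ 3`
-/

set_option autoImplicit false

namespace PW

open MP3s PV

/-- **NU.** (1) `u = q`: `X` is the last entry, `al η'_q = q - N = ι` is the minimum of `al η'` (`S_TS` (2)) and
`≤ 0` (sum `0`), `dD ≥ -ι`. (2) `u < q`: `η'_q ≥ η_(q-1) - 1` (`S_P3` (3)), so `al η'_q ≥ al η_(q-1)`, the
minimum of `al η'` is at least the one of `al η` (`0 ≤ ρ`, since `al η_q = 0`, `q < m`). `S_F1`: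
`(u+1) ι ≤ ∑_(k<u) al η_k = -∑_(u≤k<q) al η_k ≤ (q-u) ρ`. -/
def S_NU : Prop := ∀ (m q : ℕ) (η η' : Fin m → ℤ) (s b γ : Fin m → ℕ), Stp m q η η' s b γ →
  (uu q η s b γ = q → ∀ k, -al η' k ≤ dD q η s b γ) ∧
  (uu q η s b γ < q → ∀ ρ : ℤ, (∀ k, -al η k ≤ ρ) → (∀ k, -al η' k ≤ ρ) ∧
    ((uu q η s b γ : ℤ) + 1) * (uu q η s b γ - nn s b γ) ≤ ((q : ℤ) - uu q η s b γ) * ρ)

/-- **KM.** `0 ≤ D`, `al η ≤ D`: `0 ≤ D + dD`. `ι ≤ 0`: `dD ≥ 0`. `ι ≥ 1`: `u ≥ 1`, `(u+1) ι ≤ ∑_(k<u) al η_k ≤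
u D` (`S_F1`), so `ι ≤ D` and `dD ≥ -ι`. -/
def S_KM : Prop := ∀ (m q : ℕ) (η η' : Fin m → ℤ) (s b γ : Fin m → ℕ), Stp m q η η' s b γ →
  ∀ D : ℤ, 0 ≤ D → (∀ k, al η k ≤ D) → 0 ≤ D + dD q η s b γ

/-- **KN.** Induction on `q`. Write `D = DD .. q V`. `q = 0`: `D = 0`, no second claim. Step from `q`, `V`
to `q + 1`, `V' = V + inv + q - u` (`S_P1`), `V ≤ V' ≤ 3`, `D' = D + dD` (`S_Ac`), `D ≥ 0`.
Second claim, `V' < q + 1`. `u = q`: take `ρ = dD`: `-al η'_k ≤ ρ` (`S_NU`), `ρ ≥ 0` (sum `0`),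
`ρ - D' = -D ≤ 0`. `u < q`, `w = q - u ≥ 1`: `V < q`, so `ρ` for `q`; keep `ρ` (`S_NU` (2)); `ρ - D' ≤ (ρ - D)
+ ι⁺`, `ι⁺ = max ι 0`, and `(q+1-w) ι⁺ ≤ w ρ`. As `q + 1 - V' = q - V + 1 - w - inv` is positive,
`≤ q - V` and `≤ q + 1 - w`: `(q+1-V') (ρ - D') ≤ max (V ρ) 0 + w ρ ≤ V' ρ`.
First claim, `D' ≥ 0`: if `q ≤ 4`: `S_K4` for `q` (`q < m`) and `S_KM`. If `q + 1 ≥ 6`: `V' ≤ 3 < q + 1`, the
second claim gives `(q+1-V') D' ≥ (q+1-2V') ρ ≥ 0`. -/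
def S_KN : Prop := ∀ (m : ℕ) (A C β : Pr m → ℕ), (∀ p, A p ≤ 1) → (∀ p, C p ≤ 1) →
  ∀ (q : ℕ) (η : Fin m → ℤ) (V : ℕ), Pa A C β q η V → V ≤ 3 →
  0 ≤ DD A C β q V ∧ (V < q → ∃ ρ : ℤ, (∀ k, -al η k ≤ ρ) ∧ 0 ≤ ρ ∧
    ((q : ℤ) - V) * (ρ - DD A C β q V) ≤ V * ρ)

/-- **CR.** Rows `i ≤ 3`, `2 i < m`. `A p = l.count (some true, p)`, `C`, `β` similarly (`Odd1`), `S_PX`; as in
`S_CB`: with `a`, `b`, `c` the numbers of letters of the three kinds, `a + b = j`, `2c = 2a - (i+j)`, so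
`DD A C β m i = i - (a - b - 2c) = 0`. `S_KN` at `q = m`: `(m - i) ρ ≤ i ρ`, so `ρ = 0`, `al η ≥ 0` with sum `0`
(`S_Ac`): `η = δ`. -/
def S_CR : Prop := ∀ m i j : ℕ, i ≤ 3 → 2 * i < m → ∀ l : List (Lt m),
  Adm j (-((i : ℤ) + j)) ((l.map clk : List _) : Multiset _) → Odd1 l →
  ∀ η, Pth (Xl l) m η i → η = del m

/-- The condition on `(i, j)` of the theorem. -/
def Reg5 (m i j : ℕ) : Prop :=
  j ≤ i + 4 ∨ m * (m - 1) ≤ i + j + 4 ∨ m * (m - 1) / 2 + 1 ≤ i + m ∨ (i ≤ 3 ∧ 2 * i < m) ∨ m ≤ 5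

/-- The theorem. -/
def S_FR : Prop := ∀ m i j : ℕ, Reg5 m i j → ActsTrivially m i j

end PW
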