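import Pool.Agent.Lib.MP_3b3418_ag.PW.SpecR

/-!
# Project PV2, part S: the rows `i ≤ 3` without a condition on `m`
-/

set_option autoImplicit false

namespace PW

open MP3s PV

/-- **KZ.** `V = 0` (all steps with `u = q`, no inversions): `al η ≤ D`. Step: `V' = V + inv + q - u = 0`, so
`u = q`. `ι ≥ 0`: `al η'_q = ι` is the minimum of `al η'`, sum `0`: `al η' = 0`, `ι = 0`, `D' ≥ D ≥ 0`.
`ι ≤ -1`: `S_F3` (2): `al η'_z - al η_z ≤ 1 + c ≤ dD`. -/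
def S_KZ : Prop := ∀ (m : ℕ) (A C β : Pr m → ℕ), (∀ p, A p ≤ 1) → (∀ p, C p ≤ 1) →
  ∀ (q : ℕ) (η : Fin m → ℤ) (V : ℕ), Pa A C β q η V → V = 0 → ∀ k, al η k ≤ DD A C β q V

/-- **CS.** Stage `6`, `V ≤ 3`, `D = 0`: `al η = 0`. Last step `q = 5`, `V0`, `D0 ≥ 0`, `ρ` of `S_KN`.
`V0 = 0`: `S_KZ`, `S_KL`. `u = 5`: `S_NU` (1): `-al η ≤ dD = -D0 ≤ 0`. `u < 5`, `w = 5 - u`, `1 ≤ V0`,
`V0 + w ≤ 3`: `ι ≥ D0`, `(5 - 2 V0) ρ ≤ (5 - V0) D0 ≤ (5 - V0) ι` and `(6 - w) ι ≤ w ρ`, so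
`(5 - 2 V0) (6 - w) ρ ≤ (5 - V0) w ρ`, and `ρ = 0` in the cases `(V0, w) = (1,1), (1,2), (2,1)`. -/
def S_CS : Prop := ∀ (m : ℕ) (A C β : Pr m → ℕ), (∀ p, A p ≤ 1) → (∀ p, C p ≤ 1) →
  ∀ (η : Fin m → ℤ) (V : ℕ), Pa A C β 6 η V → V ≤ 3 → DD A C β 6 V = 0 → ∀ k, al η k = 0

/-- **CT.** As `S_CR`, for `m = 6`, with `S_CS`. -/
def S_CT : Prop := ∀ m i j : ℕ, i ≤ 3 → m = 6 → ∀ l : List (Lt m),
  Adm j (-((i : ℤ) + j)) ((l.map clk : List _) : Multiset _) → Odd1 l →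
  ∀ η, Pth (Xl l) m η i → η = del m

/-- The condition on `(i, j)` of the theorem. -/
def Reg6 (m i j : ℕ) : Prop :=
  j ≤ i + 4 ∨ m * (m - 1) ≤ i + j + 4 ∨ m * (m - 1) / 2 + 1 ≤ i + m ∨ i ≤ 3 ∨ m ≤ 5

/-- The theorem. -/
def S_FS : Prop := ∀ m i j : ℕ, Reg6 m i j → ActsTrivially m i j

end PW
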