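import Pool.Agent.Lib.MP_3b3418_ag.PW.All

/-!
# Project PV2, part T: the rows `i ≤ 5` for `m ≥ 6`

All statements of the parts E, F, G, R, S are proved: `zP1`, `zP2`, `zP3`, `zTS`, `zF1`, `zF3`, `zNU`,
`zKM`, `zK4`, `zAc`, `zPX`, `zCB`, .. (`PW/All.lean`); use them directly.

`D` is `DD A C β q V`; `ρ` is the maximum of `-al η`, `a` the maximum of `al η` (both attained, `≥ 0`
because the sum is `0` and `q < m`; `ρ ≤ 0` implies `al η = 0`).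
-/

set_option autoImplicit false

namespace PW

open MP3s PV

/-- A step in numbers: `u + w = q`, `c = ∑ γ`, `io = u - N`. -/
structure Pk (m q : ℕ) (η η' : Fin m → ℤ) (u w c : ℕ) (io : ℤ) : Prop where
  uw : u + w = q
  qm : q < m
  sum0 : ∑ k, al η k = 0
  sum1 : ∑ k, al η' k = 0
  tail : ∀ k : Fin m, q ≤ k.val → al η k = 0
  u0 : u = 0 → io = 0 ∧ ∀ k, al η' k = 0
  w0 : w = 0 → (∀ k, -al η' k ≤ -io) ∧ -io ≤ (q : ℤ) + c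
  w1 : 1 ≤ w → ∀ ρ : ℤ, (∀ k, -al η k ≤ ρ) → ∀ k, -al η' k ≤ ρ
  f1 : ((u : ℤ) + 1) * io ≤ ∑ k : Fin m with k.val < u, al η k
  iw : ∀ ρ : ℤ, (∀ k, -al η k ≤ ρ) → ((u : ℤ) + 1) * io ≤ w * ρ
  ia : ∀ a : ℤ, (∀ k, al η k ≤ a) → ((u : ℤ) + 1) * io ≤ u * a
  up : ∀ a : ℤ, (∀ k, al η k ≤ a) → ∀ k, al η' k ≤ a + 1 + c
  pu : w = 1 → 0 ≤ io → ∀ ρ : ℤ, (∀ k, -al η k ≤ ρ) →
    (∀ r : ℕ, ∑ k : Fin m with k.val < r, al η' k ≤ ρ) ∧ ∀ k, al η' k ≤ ρ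
  xu : ∀ k : Fin m, k.val = u → al η' k = io

/-- **Pu.** `w = 1`, `ι ≥ 0`: the partial sums of `al η'` are `≤ ρ`. For `r = u + 1`: `S_P2` (the case
`u < r`, a set `R` of `u` rows `< q`): `∑_(k<u+1) η'_k = ∑_R ζ + (m - 1 - N)`, `∑_R ζ = ∑_R η + ∑_R g - u`,
`∑_R g ≤ N`, `∑_R η ≤ ∑_(k<u) η_k` (`S_TS` (1)); with `∑_(k<u+1) δ_k = ∑_(k<u) δ_k + (m - 1 - u)`:
`∑_(k<u+1) al η'_k ≤ ∑_(k<u) al η_k = -al η_u - (tail 0) ≤ ρ` (`u + 1 = q`). For `r ≤ u`: the terms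
`al η'_k`, `k ≤ u`, are `≥ al η'_u = ι ≥ 0` (`S_TS` (2) for `η'` and `q + 1`, `S_P1` (3)), so the partial
sums up to `u + 1` increase with `r`. For `r ≥ q + 1`: the sum is the whole sum `0 ≤ ρ` (`tail` of
`η'`: `S_P2`; `ρ ≥ 0` because `∑ al η = 0`, `q < m`). Last claim: `al η'_k ≤ al η'_z = ∑_(k<1)` (`S_TS`). -/
def S_Pu : Prop := ∀ (m q : ℕ) (η η' : Fin m → ℤ) (s b γ : Fin m → ℕ), Stp m q η η' s b γ →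
  uu q η s b γ + 1 = q → 0 ≤ (uu q η s b γ : ℤ) - nn s b γ →
  ∀ ρ : ℤ, (∀ k, -al η k ≤ ρ) →
    (∀ r : ℕ, ∑ k : Fin m with k.val < r, al η' k ≤ ρ) ∧ ∀ k, al η' k ≤ ρ

/-- **Pk.** `u = uu`, `w = q - uu`, `v = inn q ζ`, `c = ∑ γ`, `io = uu - nn`. `V'`: `S_P1` (1), (2); `D`:
`S_Ac` (the increment is `dD = v + c - io`). `u0`: `S_F3` (1). `w0`: `al η'_q = io` (`S_P1` (3), `u = q`) is
the minimum of `al η'` on the rows `≤ q` (`S_TS` (2)), the others are `0`, and `io ≤ 0` (the sum is `0`); `N ≤ 2 q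
+ c`. `w1`: `S_NU` (2). `f1`: `S_F1`. `iw`: `f1` and `∑_(k<u) al η_k = -∑_(u≤k<q) al η_k ≤ w ρ`. `ia`: `f1`.
`up`: `u = 0`: `al η' = 0`, `a ≥ 0`; else `S_F3` (2): `al η'_z ≤ al η_z + g_k - 1 - k`, `g_k ≤ 2 + γ_k ≤ 2 + c`,
and `al η'_k ≤ al η'_z` (`S_TS`). `pu`: `S_Pu`. `xu`: `S_P1` (3). -/
def S_Pk : Prop := ∀ (m : ℕ) (A C β : Pr m → ℕ), (∀ p, A p ≤ 1) → (∀ p, C p ≤ 1) →
  ∀ (q : ℕ) (η' : Fin m → ℤ) (V' : ℕ), Pa A C β (q + 1) η' V' →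
  ∃ (η : Fin m → ℤ) (V u w v c : ℕ) (io : ℤ), Pa A C β q η V ∧ Pk m q η η' u w c io ∧
    V' = V + v + w ∧ DD A C β (q + 1) V' = DD A C β q V + v + c - io

/-- **V0.** `V = 0`. Induction on `q` with `S_Pk`; `V = v = w = 0`. By the induction hypothesis `al η ≤ D` (if
some `-al η_k ≥ 1`: `al η_l ≤ D + 1 + al η_k ≤ D`; else `al η = 0`). `R = -io ≥ 0`, `R ≤ q + c`, `-al η' ≤ R`,
`D' = D + c + R`, `al η' ≤ D + 1 + c` (`up`). (2): `al η'_l - al η'_k - 1 ≤ (D + 1 + c) + R - 1 = D'`.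
(3) `2 R ≤ R + q + c ≤ D' + q`. -/
def S_V0 : Prop := ∀ (m : ℕ) (A C β : Pr m → ℕ), (∀ p, A p ≤ 1) → (∀ p, C p ≤ 1) →
  ∀ (q : ℕ) (η : Fin m → ℤ) (V : ℕ), Pa A C β q η V → V = 0 →
  0 ≤ DD A C β q V ∧ (∀ k, al η k ≤ DD A C β q V) ∧
  (∀ k l, 1 ≤ -al η k → al η l - al η k - 1 ≤ DD A C β q V) ∧
  (1 ≤ q → ∀ k, 2 * (-al η k) ≤ DD A C β q V + q - 1)

/-- **V1.** `V = 1`. Induction on `q` with `S_Pk`; `R = -io`.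
`w = 0` (`V = 1`, `v = 0` or `V = 0`, `v = 1`): `D ≥ 0`, `al η ≤ D`, `-al η' ≤ R`, `0 ≤ R ≤ q + c`, `D' ≥ D + c + R`,
`al η' ≤ D + 1 + c`. If `R = 0` then `al η' = 0`. (4): `R ≤ (q + 1) (D + c) + q`. (5): first alternative.
`w = 1` (`V = v = 0`, `u = q - 1`): `u = 0`: `al η' = 0`, `io = 0`. `ρ ≤ 0`: `al η' = 0` (`w1`), `io ≤ 0` (`iw`). Else
`ρ ≥ 1`, `a ≥ 1`, `a + ρ - 1 ≤ D`, `2 ρ ≤ D + q - 1`, `q io ≤ ρ` (`iw`).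
`io ≤ -1`: `D' ≥ D + c + 1`, `al η' ≤ a + 1 + c`, `-al η' ≤ ρ ≤ D`; (4): `(q+1) (D - ρ) ≥ D - ρ ≥ ρ - q + 1`;
(5) first alternative. `io ≥ 0`: `al η' ≤ ρ` and all partial sums `≤ ρ` (`pu`); `D' ≥ ρ`: clear for
`io = 0`; for `io ≥ 1`, `(u+1) io ≤ u a` (`ia`) gives `a ≥ io + 1`. (5): second alternative. (4): it suffices that
`ρ - q ≤ (q + 1) (D' - ρ)`: clear if `ρ ≤ q`; else `D' - ρ ≥ ρ - q + 1 - io`,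
`q (q+1) (ρ - q + 1 - io) ≥ (q+1) (q-1) (ρ - q) ≥ q (ρ - q)` (`q ≥ 2`). -/
def S_V1 : Prop := ∀ (m : ℕ) (A C β : Pr m → ℕ), (∀ p, A p ≤ 1) → (∀ p, C p ≤ 1) →
  ∀ (q : ℕ) (η : Fin m → ℤ) (V : ℕ), Pa A C β q η V → V = 1 →
  0 ≤ DD A C β q V ∧ (∀ k, al η k ≤ DD A C β q V) ∧ (∀ k, -al η k ≤ DD A C β q V) ∧
  (∀ k, ((q : ℤ) + 1) * (-al η k) ≤ q * DD A C β q V + q - 1) ∧
  ((∀ k l, 1 ≤ -al η k → al η l - al η k - 1 ≤ DD A C β q V) ∨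
    ∀ r : ℕ, ∑ k : Fin m with k.val < r, al η k ≤ DD A C β q V)

/-- **V2.** `V = 2`. `w = 0`: `D' ≥ -io ≥ -al η'` (`D ≥ 0`). `w ≥ 1`: `-al η' ≤ ρ`. `w = 1`, `V = 1`, `v = 0`: `io ≤ 0`:
`D' ≥ D ≥ ρ`. `io ≥ 1`: `q io ≤ ρ`, `(q+1) ρ ≤ q D + q - 1`: `q (D - ρ - io + 1) ≥ 1`, so `D - io ≥ ρ`.
`V = 0` (`w = 1`, `v = 1` or `w = 2`): if `ρ ≤ 0` then `io ≤ 0` (`iw`). Else `a + ρ - 1 ≤ D` and `io ≤ a - 1`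
(`ia`: `(u+1) io ≤ u a`, if `io ≥ 1`), so `D' ≥ ρ`. -/
def S_V2 : Prop := ∀ (m : ℕ) (A C β : Pr m → ℕ), (∀ p, A p ≤ 1) → (∀ p, C p ≤ 1) →
  ∀ (q : ℕ) (η : Fin m → ℤ) (V : ℕ), Pa A C β q η V → V = 2 →
  0 ≤ DD A C β q V ∧ ∀ k, -al η k ≤ DD A C β q V

/-- **V3.** `V = 3`, stage `q + 1`. `w = 0`: `-al η' ≤ -io ≤ D'` (`D ≥ 0`), fine. `w ≥ 1`: then `V ≤ 2`, `ρ ≤ D`
(`S_V0`: (2) with `a ≥ 1`; `S_V1`, `S_V2`); `u = 0`: `al η' = 0`, `io = 0`; `ρ ≤ 0`: `al η' = 0`, `io ≤ 0`. Let `u ≥ 1`,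
`ρ ≥ 1`. `w = 1`: `q io ≤ ρ`, `q D' ≥ (q - 1) ρ`: `q = 2, 3`: `2 D' ≥ ρ`; `q ≥ 4`: `q D' ≥ 3 ρ`.
`V = 0`: `D' ≥ ρ` (as in `S_V2`). `w = 2`, `V = 1`, `v = 0`: first alternative of `S_V1` (5): `D' ≥ ρ` again
(`ia`); second: `f1` gives `(q - 1) io ≤ D`, `(q - 1) D' ≥ (q - 2) D`, `D ≥ ρ`: `q = 3`: `2 D' ≥ ρ`; `q ≥ 4`:
`q (q - 2) > 2 (q - 1)`. `w = 3`: `V = 0`. -/
def S_V3 : Prop := ∀ (m : ℕ) (A C β : Pr m → ℕ), (∀ p, A p ≤ 1) → (∀ p, C p ≤ 1) →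
  ∀ (q : ℕ) (η : Fin m → ℤ) (V : ℕ), Pa A C β q η V → V = 3 →
  0 ≤ DD A C β q V ∧ (q ≤ 4 → ∀ k, -al η k ≤ 2 * DD A C β q V) ∧
  (5 ≤ q → ∀ k, 1 ≤ -al η k → 2 * (-al η k) < ((q : ℤ) - 1) * DD A C β q V)

/-- **V4.** `V = 4`, stage `q + 1 ≥ 5`. `D ≥ 0` at stage `q` (for `q = 4` by `S_K4`, which needs `q < m`: `Pk.qm`).
`w = 0`: `-al η' ≤ -io ≤ D'`. `w ≥ 1`: `-al η' ≤ ρ`; `ρ ≤ 0`: `io ≤ 0`. Let `ρ ≥ 1`; claim `ρ < (q + 1) D'`.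
`w = 1`, `q io ≤ ρ`: `V = 3`, `q ≥ 5`: `2 ρ < (q - 1) D`, so `q (q - 1) (q + 1) (D - io) > (q + 1)^2 ρ`; `q = 4`:
`ρ ≤ 2 D`, `20 (D - io) ≥ 5 ρ`; `V ≤ 2`: `ρ ≤ D` implies the same two conditions. `w = 2` (`V ≤ 2`, `ρ ≤ D`):
`(q - 1) io ≤ 2 ρ`, `(q + 1) (q - 3) > q - 1`. `w = 3` (`V ≤ 1`, `al η ≤ D`, `ρ ≤ D`): `(u + 1) io ≤ u D`,
`u = q - 3`: `(q - 2) D' ≥ D ≥ ρ`. `w = 4` (`V = 0`): `u = 0`: `al η' = 0`; else `D' ≥ ρ` as in `S_V2`. -/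
def S_V4 : Prop := ∀ (m : ℕ) (A C β : Pr m → ℕ), (∀ p, A p ≤ 1) → (∀ p, C p ≤ 1) →
  ∀ (q : ℕ) (η : Fin m → ℤ) (V : ℕ), Pa A C β q η V → V = 4 → 5 ≤ q →
  0 ≤ DD A C β q V ∧ ∀ k, 1 ≤ -al η k → -al η k < q * DD A C β q V

/-- **VX** (the exceptional case). Stage `5`, `V = 2`, `D ≥ 1`: `∑_(k<2) al η_k ≤ 3 D - 1`. Otherwise, as
`-al η ≤ D` (`S_V2`) and `∑_(k<2) al η_k = -(al η_2 + al η_3 + al η_4) ≤ 3 D` (`tail`), `al η_2 = al η_3 = al η_4 =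
-D`. The step before (`S_Pk`, `q = 4`, numbers `η4, V4, u, w, v, c, io`): `w ≤ 2`, so `u` is `2`, `3` or `4`, and
`io = al η_u = -D` (`xu`), `D = D4 + v + c + D`. By `S_K4` (stage `4`) `al η4 ≤ D4`, `D4 ≥ 0`: `D4 = c = 0`,
`al η4 ≤ 0`, `al η ≤ 1` (`up`), `∑_(k<2) al η_k ≤ 2`, contradiction. -/
def S_VX : Prop := ∀ (m : ℕ) (A C β : Pr m → ℕ), (∀ p, A p ≤ 1) → (∀ p, C p ≤ 1) →
  ∀ (η : Fin m → ℤ) (V : ℕ), Pa A C β 5 η V → V = 2 → 5 < m → 1 ≤ DD A C β 5 V →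
  ∑ k : Fin m with k.val < 2, al η k ≤ 3 * DD A C β 5 V - 1

/-- **V5.** `V = 5`, stage `q + 1 ≥ 6`. `D ≥ 0` at stage `q` (`q = 5`: `S_K4` at stage `4` and `S_KM`; or
`S_V0` - `S_V4`). `w = 0`: `-al η' ≤ -io ≤ D'`; `al η' ≠ 0` gives some `-al η'_k ≥ 1`. `w ≥ 1`, `ρ ≤ 0`: `al η' = 0`,
`io ≤ 0`. Let `ρ ≥ 1`; then `D ≥ 1` and it suffices that `io < D` (or `D' ≥ 1`). `w = 1`: `q io ≤ ρ < q D` (`V = 4`: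
`S_V4`; `V = 3`: `2 ρ < (q-1) D`; `V ≤ 2`: `ρ ≤ D`). `w = 2`: `(q-1) io ≤ 2 ρ < (q-1) D`. `w = 3` (`V ≤ 2`, `ρ ≤ D`):
`q ≥ 6`: `(q-2) io ≤ 3 D`. `q = 5`: `V ≤ 1`: `al η ≤ D`, `(u+1) io ≤ u D`; `V = 2`: `f1` and `S_VX`: `3 io ≤ 3 D - 1`.
`w = 4, 5` (`V ≤ 1`): `al η ≤ D`, `(u+1) io ≤ u D`. -/
def S_V5 : Prop := ∀ (m : ℕ) (A C β : Pr m → ℕ), (∀ p, A p ≤ 1) → (∀ p, C p ≤ 1) →
  ∀ (q : ℕ) (η : Fin m → ℤ) (V : ℕ), Pa A C β q η V → V = 5 → 6 ≤ q →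
  0 ≤ DD A C β q V ∧ ((∃ k, al η k ≠ 0) → 1 ≤ DD A C β q V)

/-- **CV.** Rows `i ≤ 5`, `m ≥ 6`: as `S_CT` (`PW/R/CT.lean`), with `S_V0` - `S_V5` at `q = m`, `D = 0`: every
`-al η_k ≤ 0`, the sum is `0`, so `al η = 0`. -/
def S_CV : Prop := ∀ m i j : ℕ, i ≤ 5 → 6 ≤ m → ∀ l : List (Lt m),
  Adm j (-((i : ℤ) + j)) ((l.map clk : List _) : Multiset _) → Odd1 l →
  ∀ η, Pth (Xl l) m η i → η = del m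

/-- The condition on `(i, j)` of the theorem. -/
def Reg7 (m i j : ℕ) : Prop :=
  j ≤ i + 4 ∨ m * (m - 1) ≤ i + j + 4 ∨ m * (m - 1) / 2 + 1 ≤ i + m ∨ i ≤ 5 ∨ m ≤ 5

/-- The theorem (as `S_FS`, `PW/R/FS.lean`; uses `zTA`, `zCB`, `S_CV`). -/
def S_FV : Prop := ∀ m i j : ℕ, Reg7 m i j → ActsTrivially m i j

end PW
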